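import Mathlib

/-!
# Lagrange interpolation bound
-/

open Polynomial

namespace Pool.Agent.TH900.QM

noncomputable section

/-- product of the distances to the other nodes -/
lemma prod_dist (N i : ℕ) (hi : i < N) :
    ∏ j ∈ (Finset.range N).erase i, |(i : ℝ) - j| = (i.factorial : ℝ) * ((N - 1 - i).factorial : ℝ) := by
  have h1 : (Finset.range N).erase i = Finset.range i ∪ Finset.Ico (i + 1) N := by
    ext j
    simp only [Finset.mem_erase, Finset.mem_range, Finset.mem_union, Finset.mem_Ico]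
    omega
  have hdis : Disjoint (Finset.range i) (Finset.Ico (i + 1) N) := by
    rw [Finset.disjoint_left]
    intro j hj hj2
    rw [Finset.mem_range] at hj
    rw [Finset.mem_Ico] at hj2
    omega
  rw [h1, Finset.prod_union hdis]
  congr 1
  · rw [← Finset.prod_range_reflect, ← Finset.prod_range_add_one_eq_factorial]
    push_cast
    refine Finset.prod_congr rfl fun j hj => ?_
    rw [Finset.mem_range] at hj
    have h2 : ((i - 1 - j : ℕ) : ℝ) = i - 1 - j := by
      rw [Nat.sub_sub, Nat.cast_sub (by omega)]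
      push_cast
      ring
    rw [h2]
    have h3 : (i : ℝ) - (i - 1 - j) = j + 1 := by ring
    rw [h3, abs_of_pos (by positivity)]
  · rw [Finset.prod_Ico_eq_prod_range, ← Finset.prod_range_add_one_eq_factorial]
    have h2 : N - (i + 1) = N - 1 - i := by omega
    rw [h2]
    push_cast
    refine Finset.prod_congr rfl fun j _ => ?_
    have h3 : (i : ℝ) - (i + 1 + j) = -(j + 1) := by ring
    rw [h3, abs_neg, abs_of_pos (by positivity)]

lemma fac_le (N i : ℕ) (hi : i < N) :
    ((N - 1).factorial : ℝ) / 2 ^ (N - 1) ≤ (i.factorial : ℝ) * ((N - 1 - i).factorial : ℝ) := by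
  rw [div_le_iff₀ (by positivity)]
  have h1 := Nat.choose_mul_factorial_mul_factorial (show i ≤ N - 1 by omega)
  have h2 : ((N - 1).choose i : ℝ) ≤ 2 ^ (N - 1) := by
    exact_mod_cast Nat.choose_le_two_pow (N - 1) i
  have h3 : (((N - 1).factorial : ℕ) : ℝ) =
      ((N - 1).choose i : ℝ) * (i.factorial : ℝ) * ((N - 1 - i).factorial : ℝ) := by
    exact_mod_cast h1.symm
  rw [h3]
  have h4 : (0 : ℝ) ≤ (i.factorial : ℝ) * ((N - 1 - i).factorial : ℝ) := by positivity
  nlinarith

/-- Lagrange interpolation -/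
theorem interp (N : ℕ) (v : ℕ → ℂ) (hv : Set.InjOn v (Finset.range N)) (f : ℂ[X]) (hf : f.natDegree < N)
    (w : ℂ) (F W D : ℝ) (hF : ∀ i < N, ‖f.eval (v i)‖ ≤ F) (hW : ∀ i < N, ‖w - v i‖ ≤ W) (hD0 : 0 < D)
    (hD : ∀ i < N, D ≤ ∏ j ∈ (Finset.range N).erase i, ‖v i - v j‖) :
    ‖f.eval w‖ ≤ N * (F * (W ^ (N - 1) / D)) := by
  have hN : 0 < N := by omega
  have hF0 : 0 ≤ F := (norm_nonneg _).trans (hF 0 hN)
  have hW0 : 0 ≤ W := (norm_nonneg _).trans (hW 0 hN)
  have hdeg : f.degree < (Finset.range N).card := by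
    rw [Finset.card_range]
    exact (Polynomial.degree_le_natDegree).trans_lt (by exact_mod_cast hf)
  have h := Lagrange.eq_interpolate hv hdeg
  have h2 : f.eval w = ∑ i ∈ Finset.range N, f.eval (v i) *
      ∏ j ∈ (Finset.range N).erase i, ((v i - v j)⁻¹ * (w - v j)) := by
    conv_lhs => rw [h]
    rw [Lagrange.interpolate_apply, eval_finset_sum]
    refine Finset.sum_congr rfl fun i _ => ?_
    rw [eval_mul, eval_C]
    congr 1
    unfold Lagrange.basis
    rw [eval_prod]
    refine Finset.prod_congr rfl fun j _ => ?_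
    unfold Lagrange.basisDivisor
    simp
  rw [h2]
  refine (norm_sum_le _ _).trans ?_
  have h3 : ∀ i ∈ Finset.range N, ‖f.eval (v i) * ∏ j ∈ (Finset.range N).erase i, ((v i - v j)⁻¹ * (w - v j))‖ ≤
      F * (W ^ (N - 1) / D) := by
    intro i hi
    rw [Finset.mem_range] at hi
    rw [norm_mul]
    refine mul_le_mul (hF i hi) ?_ (norm_nonneg _) hF0
    rw [norm_prod]
    have h4 : ∏ j ∈ (Finset.range N).erase i, ‖(v i - v j)⁻¹ * (w - v j)‖ =
        (∏ j ∈ (Finset.range N).erase i, ‖w - v j‖) / ∏ j ∈ (Finset.range N).erase i, ‖v i - v j‖ := by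
      rw [← Finset.prod_div_distrib]
      refine Finset.prod_congr rfl fun j _ => ?_
      rw [norm_mul, norm_inv]
      ring
    rw [h4]
    have h5 : ∏ j ∈ (Finset.range N).erase i, ‖w - v j‖ ≤ W ^ (N - 1) := by
      refine (Finset.prod_le_prod (fun _ _ => norm_nonneg _) fun j hj => hW j ?_).trans ?_
      · exact Finset.mem_range.1 (Finset.mem_erase.1 hj).2
      · rw [Finset.prod_const, Finset.card_erase_of_mem (Finset.mem_range.2 hi), Finset.card_range]
    exact div_le_div₀ (by positivity) h5 hD0 (hD i hi)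
  refine (Finset.sum_le_sum h3).trans (le_of_eq ?_)
  rw [Finset.sum_const, Finset.card_range, nsmul_eq_mul]

end

end Pool.Agent.TH900.QM
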