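import Pool.Agent.TH900.QM.Rho
/-!
Numerical bound for the perturbation factor `KK n` of `Rho.lean`: `KK n ≤ e^{78 n} / 4` for large `n`.
-/
open Filter Topology
namespace Pool.Agent.TH900.QM
noncomputable section

lemma inv_fac_le (N : ℕ) (hN : 1 ≤ N) : (((N - 1).factorial : ℝ))⁻¹ ≤ N * (Real.exp N / (N : ℝ) ^ N) := by
  have h0 : (0 : ℝ) < N := by exact_mod_cast hN
  have h1 := Real.pow_div_factorial_le_exp (N : ℝ) h0.le N
  have h2 : (N.factorial : ℝ) = N * ((N - 1).factorial : ℝ) := by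
    exact_mod_cast (Nat.mul_factorial_pred (by omega : N ≠ 0)).symm
  rw [h2] at h1
  have h3 : (0 : ℝ) < ((N - 1).factorial : ℝ) := by positivity
  have h4 : (0 : ℝ) < (N : ℝ) ^ N := by positivity
  rw [div_le_iff₀ (by positivity)] at h1
  rw [inv_le_iff_one_le_mul₀ h3]
  have h5 : (N : ℝ) * (Real.exp N / (N : ℝ) ^ N) * ((N - 1).factorial : ℝ) =
      (Real.exp N * (N * ((N - 1).factorial : ℝ))) / (N : ℝ) ^ N := by ring
  rw [h5, le_div_iff₀ h4, one_mul]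
  exact h1

lemma KK_one {n : ℕ} (hn : 1 ≤ n) : (40 * (n : ℝ) ^ 2 + 7 * n) ^ (8 * n) ≤
    (40 * (n : ℝ) ^ 2) ^ (8 * n) * Real.exp 1.4 := by
  have hn0 : (0 : ℝ) < n := by exact_mod_cast hn
  have e1 : 40 * (n : ℝ) ^ 2 + 7 * n = 40 * (n : ℝ) ^ 2 * (7 / (40 * n) + 1) := by
    field_simp
    ring
  rw [e1, mul_pow]
  apply mul_le_mul_of_nonneg_left _ (by positivity)
  calc (7 / (40 * (n : ℝ)) + 1) ^ (8 * n) ≤ (Real.exp (7 / (40 * n))) ^ (8 * n) :=
        pow_le_pow_left₀ (by positivity) (Real.add_one_le_exp _) _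
    _ = Real.exp 1.4 := by
        rw [← Real.exp_nat_mul]
        congr 1
        push_cast
        field_simp
        norm_num

lemma KK_two {n : ℕ} (hn : 1 ≤ n) :
    (10.1981 * (n : ℝ)) ^ (16 * n - 1) / (((16 * n - 1).factorial : ℝ) / 8 ^ (16 * n - 1)) ≤
      16 * n * ((5.09905 : ℝ) ^ (16 * n) * Real.exp (16 * n)) := by
  have hn1 : (1 : ℝ) ≤ n := by exact_mod_cast hn
  have hn0 : (0 : ℝ) < n := by linarith
  have h1 := inv_fac_le (16 * n) (by omega)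
  push_cast at h1
  have h2 : (10.1981 * (n : ℝ)) ^ (16 * n - 1) ≤ (10.1981 * (n : ℝ)) ^ (16 * n) :=
    pow_le_pow_right₀ (by nlinarith) (by omega)
  have h3 : (8 : ℝ) ^ (16 * n - 1) ≤ 8 ^ (16 * n) := pow_le_pow_right₀ (by norm_num) (by omega)
  calc _ = (10.1981 * (n : ℝ)) ^ (16 * n - 1) * 8 ^ (16 * n - 1) * (((16 * n - 1).factorial : ℝ))⁻¹ := by
        field_simp
    _ ≤ (10.1981 * (n : ℝ)) ^ (16 * n) * 8 ^ (16 * n) *
        (16 * n * (Real.exp (16 * n) / (16 * (n : ℝ)) ^ (16 * n))) := by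
        apply mul_le_mul (mul_le_mul h2 h3 (by positivity) (by positivity)) h1 (by positivity) (by positivity)
    _ = 16 * n * ((10.1981 * (n : ℝ)) ^ (16 * n) * 8 ^ (16 * n) / (16 * (n : ℝ)) ^ (16 * n) * Real.exp (16 * n)) := by
        ring
    _ = _ := by
        congr 2
        rw [← mul_pow, ← div_pow]
        congr 1
        field_simp
        norm_num

lemma KK_three {n : ℕ} (hn : 1 ≤ n) :
    ((2 : ℝ) ^ (8 * n - 1) / ((8 * n - 1).factorial : ℝ)) ^ 2 ≤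
      (8 * n) ^ 2 * (((4 * (n : ℝ)) ^ (16 * n))⁻¹ * Real.exp (16 * n)) := by
  have hn1 : (1 : ℝ) ≤ n := by exact_mod_cast hn
  have hn0 : (0 : ℝ) < n := by linarith
  have h1 := inv_fac_le (8 * n) (by omega)
  push_cast at h1
  have h3 : (2 : ℝ) ^ (8 * n - 1) ≤ 2 ^ (8 * n) := pow_le_pow_right₀ (by norm_num) (by omega)
  have h4 : (2 : ℝ) ^ (8 * n - 1) / ((8 * n - 1).factorial : ℝ) ≤
      8 * n * (((4 * (n : ℝ)) ^ (8 * n))⁻¹ * Real.exp (8 * n)) := by
    calc _ = (2 : ℝ) ^ (8 * n - 1) * (((8 * n - 1).factorial : ℝ))⁻¹ := by rw [div_eq_mul_inv]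
      _ ≤ 2 ^ (8 * n) * (8 * n * (Real.exp (8 * n) / (8 * (n : ℝ)) ^ (8 * n))) :=
          mul_le_mul h3 h1 (by positivity) (by positivity)
      _ = 8 * n * ((2 ^ (8 * n) / (8 * (n : ℝ)) ^ (8 * n)) * Real.exp (8 * n)) := by ring
      _ = _ := by
          congr 2
          rw [← div_pow, ← inv_pow]
          congr 1
          field_simp
          norm_num
  refine (pow_le_pow_left₀ (by positivity) h4 2).trans (le_of_eq ?_)
  have e2 : Real.exp (8 * (n : ℝ)) ^ 2 = Real.exp (16 * n) := by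
    rw [sq, ← Real.exp_add]
    congr 1
    ring
  have e3 : (((4 * (n : ℝ)) ^ (8 * n))⁻¹) ^ 2 = ((4 * (n : ℝ)) ^ (16 * n))⁻¹ := by
    rw [inv_pow, ← pow_mul]
    congr 2
    ring
  rw [mul_pow, mul_pow, mul_pow, e2, e3]

lemma log_num : Real.log 65.001 ≤ 4.17453 := by
  have h1 : (65.001 : ℝ) = 2 ^ 6 * (65.001 / 64) := by norm_num
  rw [h1, Real.log_mul (by norm_num) (by norm_num), Real.log_pow]
  have h2 : Real.log (65.001 / 64) ≤ 65.001 / 64 - 1 := Real.log_le_sub_one_of_pos (by norm_num)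
  have h3 := Real.log_two_lt_d9
  push_cast
  linarith

lemma KK_four {n : ℕ} (hn : 1 ≤ n) :
    (40 * (n : ℝ) ^ 2) ^ (8 * n) * (5.09905 : ℝ) ^ (16 * n) * ((4 * (n : ℝ)) ^ (16 * n))⁻¹ ≤
      Real.exp (33.39624 * n) := by
  have hn1 : (1 : ℝ) ≤ n := by exact_mod_cast hn
  have hn0 : (0 : ℝ) < n := by linarith
  have e1 : (40 * (n : ℝ) ^ 2) ^ (8 * n) * (5.09905 : ℝ) ^ (16 * n) * ((4 * (n : ℝ)) ^ (16 * n))⁻¹ =
      (40 * (5.09905 : ℝ) ^ 2 / 16) ^ (8 * n) := by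
    rw [show 16 * n = 2 * (8 * n) by ring, pow_mul (5.09905 : ℝ), pow_mul (4 * (n : ℝ)), ← inv_pow, ← mul_pow,
      ← mul_pow]
    congr 1
    field_simp
    norm_num
  rw [e1]
  have h1 : (40 * (5.09905 : ℝ) ^ 2 / 16) ≤ 65.001 := by norm_num
  calc _ ≤ (65.001 : ℝ) ^ (8 * n) := pow_le_pow_left₀ (by positivity) h1 _
    _ = Real.exp ((8 * n) * Real.log 65.001) := by
        rw [show (8 * (n : ℝ)) = ((8 * n : ℕ) : ℝ) by push_cast; ring, ← Real.log_pow, Real.exp_log (by positivity)]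
    _ ≤ _ := by
        apply Real.exp_le_exp.2
        have := log_num
        nlinarith

lemma KK_le {n : ℕ} (hn : 1 ≤ n) : KK n ≤ (8 * 16 * 16 * 64 * Real.exp 1.4) * (n : ℝ) ^ 5 * Real.exp (77.97 * n) := by
  have hn1 : (1 : ℝ) ≤ n := by exact_mod_cast hn
  have hn0 : (0 : ℝ) < n := by linarith
  have a1 := KK_one hn
  have a2 := KK_two hn
  have a3 := KK_three hn
  have a4 := KK_four hn
  unfold KK
  set E1 := Real.exp (4 * Real.pi * n)
  have hE1 : 0 < E1 := Real.exp_pos _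
  calc _ ≤ (8 * n) * ((16 * n) * ((E1 * ((40 * (n : ℝ) ^ 2) ^ (8 * n) * Real.exp 1.4)) *
        (16 * n * ((5.09905 : ℝ) ^ (16 * n) * Real.exp (16 * n)))) *
        ((8 * n) ^ 2 * (((4 * (n : ℝ)) ^ (16 * n))⁻¹ * Real.exp (16 * n)))) := by
        have b1 : E1 * (40 * (n : ℝ) ^ 2 + 7 * n) ^ (8 * n) ≤ E1 * ((40 * (n : ℝ) ^ 2) ^ (8 * n) * Real.exp 1.4) :=
          mul_le_mul_of_nonneg_left a1 hE1.le
        have b2 := mul_le_mul b1 a2 (by positivity) (by positivity)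
        have b3 := mul_le_mul (mul_le_mul_of_nonneg_left b2 (by positivity : (0 : ℝ) ≤ 16 * n)) a3
          (by positivity) (by positivity)
        exact mul_le_mul_of_nonneg_left b3 (by positivity)
    _ = (8 * 16 * 16 * 64 * Real.exp 1.4) * (n : ℝ) ^ 5 *
        ((E1 * (Real.exp (16 * n) * Real.exp (16 * n))) *
          ((40 * (n : ℝ) ^ 2) ^ (8 * n) * (5.09905 : ℝ) ^ (16 * n) * ((4 * (n : ℝ)) ^ (16 * n))⁻¹)) := by ring
    _ ≤ (8 * 16 * 16 * 64 * Real.exp 1.4) * (n : ℝ) ^ 5 *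
        ((E1 * (Real.exp (16 * n) * Real.exp (16 * n))) * Real.exp (33.39624 * n)) := by
        apply mul_le_mul_of_nonneg_left (mul_le_mul_of_nonneg_left a4 (by positivity)) (by positivity)
    _ ≤ _ := by
        apply mul_le_mul_of_nonneg_left _ (by positivity)
        rw [← Real.exp_add, ← Real.exp_add, ← Real.exp_add]
        apply Real.exp_le_exp.2
        have := Real.pi_lt_d4
        nlinarith

lemma exp_poly (A c : ℝ) (hc : 0 < c) : ∀ᶠ n : ℕ in atTop, A * (n : ℝ) ^ 5 * Real.exp (-(0.03 * n)) ≤ c := by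
  have h0 : Tendsto (fun n : ℕ => 0.03 * (n : ℝ)) atTop atTop :=
    tendsto_natCast_atTop_atTop.const_mul_atTop (by norm_num)
  have h1 : Tendsto (fun n : ℕ => ((n : ℝ)) ^ 5 * Real.exp (-0.03 * (n : ℝ))) atTop (𝓝 0) := by
    have h := ((Real.tendsto_pow_mul_exp_neg_atTop_nhds_zero 5).comp h0).const_mul ((1 / 0.03 : ℝ) ^ 5)
    rw [mul_zero] at h
    refine h.congr fun n => ?_
    simp only [Function.comp_apply]
    rw [mul_pow, ← mul_assoc, ← mul_assoc, ← mul_pow]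
    norm_num
  have h2 : Tendsto (fun n : ℕ => A * (((n : ℝ)) ^ 5 * Real.exp (-0.03 * (n : ℝ)))) atTop (𝓝 (A * 0)) :=
    h1.const_mul _
  rw [mul_zero] at h2
  filter_upwards [h2.eventually (gt_mem_nhds hc)] with n h3
  have e : -(0.03 * (n : ℝ)) = -0.03 * n := by ring
  rw [e, mul_assoc]
  exact h3.le

/-- the perturbation is small -/
theorem KK_small : ∀ᶠ n : ℕ in atTop, KK n * Real.exp (-(78 * n)) ≤ 1 / 4 := by
  filter_upwards [exp_poly (8 * 16 * 16 * 64 * Real.exp 1.4) (1 / 4) (by norm_num), eventually_ge_atTop 1] with n h1 hn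
  refine (mul_le_mul_of_nonneg_right (KK_le hn) (Real.exp_pos _).le).trans ?_
  rw [mul_assoc ((8 * 16 * 16 * 64 * Real.exp 1.4) * (n : ℝ) ^ 5), ← Real.exp_add]
  have e : 77.97 * (n : ℝ) + -(78 * n) = -(0.03 * n) := by ring
  rw [e]
  exact h1

end
end Pool.Agent.TH900.QM
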