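import Pool.Agent.H397R2.QF.H3972G7
import Pool.Agent.TH900.QM.Num

/-!
# Irrationality measure of `8 G ± 5 π²/6`: the archimedean bound, uniformly in the rational number `u`

(the proof of `G7_arch_of` of `Pool.Agent.H216R2.QZ.Z7`, with the order of the quantifiers changed)
-/

open Polynomial Filter Topology Pool.Agent.H337R2

namespace Pool.Agent.TH900.QM

noncomputable section

open Pool.Agent.H397R2.QG Pool.Agent.H216R2.QZ
open Pool.Agent.QG.LG (WL zc PhiG)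

/-- the archimedean bound, from the line part and the bound for the functional, uniform in `u` -/
theorem arch_of (σ : ℕ) (hσ : σ = 1 ∨ σ = 3)
    (hG4 : ∃ (C : ℝ) (K : ℕ), 0 < C ∧ ∀ ε : ℝ, 0 < ε → ∀ᶠ N : ℕ in atTop,
      ∀ n : ℕ, n = 24 * N + 1 → ∃ (G : ℕ → ℚ[X]) (A : ℕ → ℝ),
      (∀ j < 5 * n, (G j).Monic ∧ (G j).natDegree = j ∧ 0 < A j ∧
        ∀ y : ℝ, WL n σ y * Real.exp (-(2 * Real.pi * |y|)) * ‖aeval (zc n σ y) (G j)‖ ^ 2 ≤
          A j ^ 2 * (1 + y ^ 2)⁻¹) ∧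
      A 0 ^ 2 * (n : ℝ) ^ (10 * n) ≤ C * (n : ℝ) ^ K * Real.exp (n * PhiG) ∧
      ∑ j ∈ Finset.range (5 * n), 2 * Real.log (A j) ≤
        -(25 * (n : ℝ) ^ 2 * Real.log n) + (5 * PhiG - 9724 / 576 * Real.log 2 + ε) * (n : ℝ) ^ 2)
    (hG5 : 5 * PhiG - 9724 / 576 * Real.log 2 ≤ -1573 / 10) :
    ∀ ε : ℝ, 0 < ε → ∀ᶠ N : ℕ in atTop, ∀ n : ℕ, n = 24 * N + 1 → ∀ u : ℚ,
      (∀ Q : ℚ[X], Q.natDegree + 2 ≤ 14 * n → ∀ B : ℝ,
        (∀ y : ℝ, ‖Rn n σ y‖ * ‖aeval (zt n σ y) Q‖ * Real.exp (-(2 * Real.pi * |y|)) ≤ B * (1 + y ^ 2)⁻¹) →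
        |((NL n σ u Q - ∑ l ∈ Finset.range (2 * n), wh n σ l * Q.eval (xh σ l) : ℚ) : ℝ)| ≤ 16 * B) →
      DET n σ u (7 * n) ≠ 0 →
      Real.log |((DET n σ u (7 * n) : ℚ) : ℝ)| ≤
        -49 * (n : ℝ) ^ 2 * Real.log n + (-208 + ε) * (n : ℝ) ^ 2 := by
  intro ε hε
  obtain ⟨C, K, hC, hG⟩ := hG4
  obtain ⟨CS, hS⟩ := Z6_sat
  have hε4 : 0 < ε / 4 := by positivity
  have ht : Tendsto (fun N : ℕ => 24 * N + 1) atTop atTop :=
    tendsto_atTop_mono (fun N => by simp only [id]; omega) tendsto_id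
  -- lower order terms
  set c1 : ℝ := 2 * (Real.log 1025 + |Real.log C| + |CS|) + 5 * Real.log 16 + 34 / 10 + 7 * (Real.log 7) with hc1
  have hev := ht.eventually (final_ev c1 (2 * (K + 21) + 8) (ε / 4) hε4)
  filter_upwards [hG (ε / 4) hε4, Z4_zone (ε / 4) hε4, hev, eventually_ge_atTop 100] with N hGN hZN hevN hN n hn u hB2 hD
  obtain ⟨G, A, hGA, hA0, hsum⟩ := hGN n hn
  have hZ := hZN n hn σ hσ
  have hS' := hS N hN n hn σ hσ
  rw [← hn] at hevN
  have hn1 : 1 ≤ n := by omega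
  have hn1' : (1 : ℝ) ≤ n := by exact_mod_cast hn1
  have hL : 0 ≤ Real.log n := Real.log_nonneg hn1'
  have hG0 : G 0 = 1 := by
    have h1 := (hGA 0 (by omega)).1
    have h2 := (hGA 0 (by omega)).2.1
    rw [Polynomial.eq_C_of_natDegree_eq_zero h2] at h1 ⊢
    rw [Polynomial.Monic, Polynomial.leadingCoeff_C] at h1
    rw [h1, C_1]
  have hwline : ∀ y : ℝ, ∀ Q : ℚ[X], wtq n σ y * ‖aeval (zt n σ y) (Z2.ZZ (xq σ) (2 * n) * Q)‖ ^ 2 =
      WL n σ y * Real.exp (-(2 * Real.pi * |y|)) * ‖aeval (zc n σ y) Q‖ ^ 2 * (1 + y ^ 2) := by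
    intro y Q
    rw [← WL_eq, map_mul, norm_mul, ← zt_eq]
    unfold wtq
    ring
  have hrow : ∀ j < 5 * n, ∀ y : ℝ, wtq n σ y * ‖aeval (zt n σ y) (Z2.ZZ (xq σ) (2 * n) * G j)‖ ^ 2 ≤ A j ^ 2 := by
    intro j hj y
    rw [hwline]
    have h := (hGA j hj).2.2.2 y
    have hy : (0 : ℝ) < 1 + y ^ 2 := by positivity
    calc WL n σ y * Real.exp (-(2 * Real.pi * |y|)) * ‖aeval (zc n σ y) (G j)‖ ^ 2 * (1 + y ^ 2)
        ≤ (A j ^ 2 * (1 + y ^ 2)⁻¹) * (1 + y ^ 2) := mul_le_mul_of_nonneg_right h hy.le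
      _ = A j ^ 2 := by field_simp
  have hbound := Z2_bound (7 * n) (2 * n) (by omega) (xq σ) (wq n σ)
    (fun i _ j _ hij h => hij (by
      unfold xq at h
      have h' : (i : ℚ) = j := by linarith
      exact_mod_cast h'))
    (NL n σ u) (zt n σ) (wtq n σ) 16 (A 0 ^ 2) (by norm_num) (by positivity)
    (fun Q hQ B hB => by
      have h := hB2 Q (by omega) B (fun y => by
        have h := hB y
        unfold wtq at h
        have hy : (0 : ℝ) < 1 + y ^ 2 := by positivity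
        rw [← div_eq_mul_inv, le_div_iff₀ hy]
        calc ‖Rn n σ y‖ * ‖aeval (zt n σ y) Q‖ * Real.exp (-(2 * Real.pi * |y|)) * (1 + y ^ 2)
            = ‖Rn n σ y‖ * Real.exp (-(2 * Real.pi * |y|)) * (1 + y ^ 2) * ‖aeval (zt n σ y) Q‖ := by ring
          _ ≤ B := h)
      have e : ∑ t ∈ Finset.range (2 * n), wq n σ t * Q.eval (xq σ t) =
          ∑ l ∈ Finset.range (2 * n), wh n σ l * Q.eval (xh σ l) := by
        apply Finset.sum_congr rfl
        intro l _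
        rw [wh_eq]
        rfl
      rw [e]
      exact h)
    G (fun j => 2 * Real.log (A j)) (fun j hj => ⟨(hGA j (by omega)).1, (hGA j (by omega)).2.1⟩)
    (wtq_nonneg n σ) (fun l hl y => dist_line hσ l hl y)
    (fun j hj y => by
      have hAj := (hGA j (by omega)).2.2.1
      have e : Real.exp (2 * Real.log (A j)) = A j ^ 2 := by
        rw [← Real.log_rpow hAj, Real.exp_log (by positivity)]
        norm_cast
      rw [e]
      exact hrow j (by omega) y)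
    (fun y => by
      have h := hrow 0 (by omega) y
      rw [hG0, mul_one] at h
      exact h)
  have e57 : 7 * n - 2 * n = 5 * n := by omega
  rw [e57] at hbound
  have hC1 : (1 : ℝ) ≤ max C 1 := le_max_right _ _
  have hcore := core (C1 := max C 1) (K1 := K) (CS := |CS|) hN hn hσ hC1 A (fun j hj => (hGA j hj).2.2.1)
    (hA0.trans (by gcongr; exact le_max_left _ _)) (abs_nonneg CS)
    (fun l hl => (hS' l hl).trans (by
      have := le_abs_self CS
      linarith))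
    ((DET n σ u (7 * n) : ℚ) : ℝ) (by exact_mod_cast hD) hbound
  refine hcore.trans ?_
  have hlC : Real.log (max C 1) ≤ |Real.log C| := by
    rcases le_total C 1 with h | h
    · rw [max_eq_right h, Real.log_one]; exact abs_nonneg _
    · rw [max_eq_left h]; exact le_abs_self _
  have hfac : Real.log ((7 * n).factorial : ℝ) ≤ 7 * n * (Real.log 7 + Real.log n) := by
    have h1 : ((7 * n).factorial : ℝ) ≤ ((7 * n : ℕ) : ℝ) ^ (7 * n) := by
      exact_mod_cast Nat.factorial_le_pow (7 * n)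
    have h2 := Real.log_le_log (by positivity) h1
    rw [Real.log_pow] at h2
    push_cast at h2
    rw [Real.log_mul (by norm_num) (by positivity)] at h2
    exact h2
  have hnr : (n : ℝ) = 24 * N + 1 := by rw [hn]; push_cast; ring
  have hzk : 17 / 10 * (27 * (N : ℝ) + 2) * n ≤ 19125 / 10000 * (n : ℝ) ^ 2 + 34 / 10 * n := by
    have hN0 : (0 : ℝ) ≤ N := by positivity
    have : (N : ℝ) = (n - 1) / 24 := by rw [hnr]; ring
    rw [this]
    nlinarith
  have hZT := ZTq_le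
  have hn2 : (0 : ℝ) ≤ (n : ℝ) ^ 2 := by positivity
  have hkey : Real.log ((7 * n).factorial : ℝ) +
      2 * n * (Real.log 1025 + Real.log (max C 1) + |CS| + (K + 21) * Real.log n) + 34 / 10 * n +
      5 * n * Real.log 16 ≤ ε / 4 * (n : ℝ) ^ 2 := by
    refine le_trans ?_ hevN
    rw [hc1]
    push_cast
    have h1 : 2 * (n : ℝ) * Real.log (max C 1) ≤ 2 * n * |Real.log C| := by
      apply mul_le_mul_of_nonneg_left hlC (by positivity)
    nlinarith [mul_nonneg (by positivity : (0 : ℝ) ≤ n) hL]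
  have h1 : ZTq * (n : ℝ) ^ 2 ≤ -527 / 10 * (n : ℝ) ^ 2 := mul_le_mul_of_nonneg_right hZT hn2
  have h2 : (5 * PhiG - 9724 / 576 * Real.log 2) * (n : ℝ) ^ 2 ≤ -1573 / 10 * (n : ℝ) ^ 2 :=
    mul_le_mul_of_nonneg_right hG5 hn2
  nlinarith

/-- the archimedean bound at a rational number close to `theta σ` -/
theorem arch (σ : ℕ) (hσ : σ = 1 ∨ σ = 3) :
    ∀ ε : ℝ, 0 < ε → ∀ᶠ N : ℕ in atTop, ∀ n : ℕ, n = 24 * N + 1 → ∀ u : ℚ,
      |(u : ℝ) - theta σ| ≤ Real.exp (-(78 * n)) → DET n σ u (7 * n) ≠ 0 →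
      Real.log |((DET n σ u (7 * n) : ℚ) : ℝ)| ≤
        -49 * (n : ℝ) ^ 2 * Real.log n + (-208 + ε) * (n : ℝ) ^ 2 := by
  intro ε hε
  have ht : Tendsto (fun N : ℕ => 24 * N + 1) atTop atTop :=
    tendsto_atTop_mono (fun N => by simp only [id]; omega) tendsto_id
  filter_upwards [arch_of σ hσ (Pool.Agent.QG.LG.G4_rows σ hσ) Pool.Agent.QG.LG.G5_num ε hε,
    ht.eventually KK_small] with N h1 h2 n hn u hu hD
  rw [← hn] at h2
  refine h1 n hn u (fun Q hQ B hB => ?_) hD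
  have hn1 : 1 ≤ n := by omega
  have h3 := B2p n σ hn1 hσ u Q hQ B hB
  have h4 := rho_le hn1 hσ Q hQ B hB
  have hB0 : 0 ≤ B := by
    have h := hB 0
    simp only [abs_zero, mul_zero, neg_zero, Real.exp_zero, mul_one, ne_eq, OfNat.ofNat_ne_zero,
      not_false_eq_true, zero_pow, add_zero, inv_one] at h
    exact le_trans (by positivity) h
  have h5 : |(u : ℝ) - theta σ| * |((rho n Q : ℚ) : ℝ)| ≤ B * (1 / 4) := by
    calc |(u : ℝ) - theta σ| * |((rho n Q : ℚ) : ℝ)| ≤ Real.exp (-(78 * n)) * (B * KK n) :=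
          mul_le_mul hu h4 (abs_nonneg _) (Real.exp_pos _).le
      _ = B * (KK n * Real.exp (-(78 * n))) := by ring
      _ ≤ B * (1 / 4) := mul_le_mul_of_nonneg_left h2 hB0
  linarith

end

end Pool.Agent.TH900.QM
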