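import Pool.Agent.H387R3.QG.BL

/-!
# Irrationality measure of `8 G ± 5 π²/6`: the linear form at an arbitrary rational number

`NL n σ u` with `u` not equal to the number `θ = theta σ`: the difference is `(u - θ) rho`.
-/

open MeasureTheory Filter Topology Complex Polynomial Pool.Agent.H337R2 Pool.Agent.H397R2.QG

namespace Pool.Agent.TH900.QM

noncomputable section

/-- the coefficient of `u` in `NL n σ u Q` -/
def rho (n : ℕ) (Q : ℚ[X]) : ℚ := ∑ k ∈ sQ n, pa (sQ n) m2 (PPn n * Q) k 2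

open Pool.Agent.H397R2.QG.BLx Pool.Agent.H387R3.QG

/-- zone plus line, for every rational `u` -/
theorem B_linep (n σ : ℕ) (hn : 1 ≤ n) (hσ : σ = 1 ∨ σ = 3) (u : ℚ) (Q : ℚ[X])
    (hQ : Q.natDegree + 2 ≤ 14 * n) :
    (((NL n σ u Q - ∑ l ∈ Finset.range (2 * n), wh n σ l * Q.eval (xh σ l) : ℚ) : ℝ) : ℂ) =
      (((u : ℝ) - theta σ : ℝ) : ℂ) * (((rho n Q : ℚ) : ℝ) : ℂ)
      - ∫ y : ℝ, Rn n σ y * aeval (zt n σ y) Q * ((ker σ y : ℝ) : ℂ) := by
  obtain ⟨hb0, hb1⟩ := sig hσ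
  have hd := deg1 Q hQ
  have hres := residue_sum (sQ n) m2 (PPn n * Q) (deg2 Q hQ)
  obtain ⟨Λ1, -, hΛ1⟩ := lam hσ (i := 1) le_rfl
  obtain ⟨Λ2, hL2, hΛ2⟩ := lam hσ (i := 2) (by norm_num)
  have hΛ : Λ2 = ((theta σ : ℝ) : ℂ) := tendsto_nhds_unique hL2 (theta_lim hσ)
  unfold rho
  set P := PPn n * Q with hP
  have hA : ∀ k ∈ sQ n, ((k + 2 * n : ℕ) : ℝ) - 1 / 2 + (σ : ℝ) / 8 = cl n σ + k := by
    intro k _
    unfold cl
    push_cast
    ring
  have hA1 : ∀ k ∈ sQ n, (1 : ℝ) ≤ cl n σ + k := by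
    intro k hk
    rw [← hA k hk]
    have h1 : (1 : ℝ) ≤ k := by exact_mod_cast (Finset.mem_Icc.1 hk).1
    have h2 : (1 : ℝ) ≤ n := by exact_mod_cast hn
    have h3 : (0 : ℝ) ≤ (σ : ℝ) := by positivity
    push_cast
    linarith
  have hint : ∀ y : ℝ, Rn n σ y * aeval (zt n σ y) Q * ((ker σ y : ℝ) : ℂ) =
      ∑ k ∈ sQ n, ∑ i ∈ Finset.Icc 1 2, ((pa (sQ n) m2 P k i : ℚ) : ℂ) *
        (li (cl n σ + k) y ^ i * ((ker σ y : ℝ) : ℂ)) := by
    intro y
    have e : ∀ k : ℕ, zt n σ y + (k : ℂ) = ((cl n σ + k : ℝ) : ℂ) + y * I := by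
      intro k
      unfold zt; push_cast; ring
    have hz : ∀ k ∈ sQ n, zt n σ y + (k : ℂ) ≠ 0 := by
      intro k hk
      rw [e]
      exact lf_ne (by have := hA1 k hk; linarith) y
    have h1 := pf2 (sQ n) P hd (zt n σ y) hz
    have h3 : Rn n σ y * aeval (zt n σ y) Q = aeval (zt n σ y) P / aeval (zt n σ y) (QQ (sQ n) m2) := by
      rw [hP, map_mul]
      unfold Rn
      ring
    rw [h3, h1, Finset.sum_mul]
    apply Finset.sum_congr rfl
    intro k _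
    rw [Finset.sum_mul]
    apply Finset.sum_congr rfl
    intro i _
    rw [e k]
    unfold li
    ring
  have hI : (∫ y : ℝ, Rn n σ y * aeval (zt n σ y) Q * ((ker σ y : ℝ) : ℂ)) =
      ∫ y : ℝ, ∑ k ∈ sQ n, ∑ i ∈ Finset.Icc 1 2, ((pa (sQ n) m2 P k i : ℚ) : ℂ) *
        (li (cl n σ + k) y ^ i * ((ker σ y : ℝ) : ℂ)) :=
    integral_congr_ae (Filter.Eventually.of_forall hint)
  have hInt : ∀ k ∈ sQ n, ∀ i ∈ Finset.Icc 1 2,
      Integrable (fun y : ℝ => li (cl n σ + k) y ^ i * ((ker σ y : ℝ) : ℂ)) := by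
    intro k hk i hi
    have := ker_integrable hb0 hb1 (hA1 k hk) (Finset.mem_Icc.1 hi).1
    simpa only [ker_eq] using this
  rw [hI, integral_finsetSum]
  · rw [real_form u Q hQ]
    have e0 : ((((∑ k ∈ sQ n, (pa (sQ n) m2 P k 2 * (u - fs σ 2 (k + 2 * n)) -
        pa (sQ n) m2 P k 1 * fs σ 1 (k + 2 * n)) : ℚ) : ℝ)) : ℂ) =
        (((u : ℝ) - theta σ : ℝ) : ℂ) * (((∑ k ∈ sQ n, pa (sQ n) m2 P k 2 : ℚ) : ℝ) : ℂ) +
        ∑ k ∈ sQ n, (((pa (sQ n) m2 P k 2 : ℚ) : ℂ) * (Λ2 - ((fs σ 2 (k + 2 * n) : ℚ) : ℂ)) +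
          ((pa (sQ n) m2 P k 1 : ℚ) : ℂ) * (Λ1 - ((fs σ 1 (k + 2 * n) : ℚ) : ℂ))) := by
      have h0 : ∑ k ∈ sQ n, ((pa (sQ n) m2 P k 1 : ℚ) : ℂ) * Λ1 = 0 := by
        rw [← Finset.sum_mul, ← Rat.cast_sum, hres]
        simp
      rw [← sub_zero (∑ k ∈ sQ n, (((pa (sQ n) m2 P k 2 : ℚ) : ℂ) * (Λ2 - _) + _)), ← h0,
        ← Finset.sum_sub_distrib, hΛ]
      push_cast
      rw [Finset.mul_sum, ← Finset.sum_add_distrib]
      apply Finset.sum_congr rfl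
      intro k _
      ring
    rw [e0]
    refine Eq.trans (congrArg _ ?_) (sub_eq_add_neg _ _).symm
    rw [← Finset.sum_neg_distrib]
    apply Finset.sum_congr rfl
    intro k hk
    have hk1 : 1 ≤ k := (Finset.mem_Icc.1 hk).1
    rw [integral_finsetSum _ (fun i hi => (hInt k hk i hi).const_mul _)]
    rw [show Finset.Icc 1 2 = {1, 2} by rfl, Finset.sum_pair (by norm_num), integral_const_mul, integral_const_mul]
    have a1 := hΛ1 (k + 2 * n) (by omega)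
    have a2 := hΛ2 (k + 2 * n) (by omega)
    rw [hA k hk] at a1 a2
    rw [a1, a2]
    ring
  · intro k hk
    apply integrable_finsetSum
    intro i hi
    exact (hInt k hk i hi).const_mul _

/-- the bound used in the archimedean part -/
theorem B2p (n σ : ℕ) (hn : 1 ≤ n) (hσ : σ = 1 ∨ σ = 3) (u : ℚ) (Q : ℚ[X])
    (hQ : Q.natDegree + 2 ≤ 14 * n) (B : ℝ)
    (hB : ∀ y : ℝ, ‖Rn n σ y‖ * ‖aeval (zt n σ y) Q‖ * Real.exp (-(2 * Real.pi * |y|)) ≤ B * (1 + y ^ 2)⁻¹) :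
    |((NL n σ u Q - ∑ l ∈ Finset.range (2 * n), wh n σ l * Q.eval (xh σ l) : ℚ) : ℝ)| ≤
      15.71 * B + |(u : ℝ) - theta σ| * |((rho n Q : ℚ) : ℝ)| := by
  have h1 := B_linep n σ hn hσ u Q hQ
  have hB0 : 0 ≤ B := by
    have h := hB 0
    simp only [abs_zero, mul_zero, neg_zero, Real.exp_zero, mul_one, ne_eq, OfNat.ofNat_ne_zero,
      not_false_eq_true, zero_pow, add_zero, inv_one] at h
    exact le_trans (by positivity) h
  have hs2 : Real.sqrt 2 ≤ 283 / 200 := by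
    rw [Real.sqrt_le_left (by norm_num)]
    norm_num
  have hs0 : 0 ≤ Real.sqrt 2 := Real.sqrt_nonneg 2
  have hsc : Real.sin (Real.pi * σ / 4) = Real.sqrt 2 / 2 ∧ -(Real.sqrt 2 / 2) ≤ Real.cos (Real.pi * σ / 4) := by
    rcases hσ with rfl | rfl
    · rw [show Real.pi * ((1 : ℕ) : ℝ) / 4 = Real.pi / 4 by push_cast; ring, Real.sin_pi_div_four,
        Real.cos_pi_div_four]
      constructor
      · rfl
      · linarith
    · rw [show Real.pi * ((3 : ℕ) : ℝ) / 4 = Real.pi - Real.pi / 4 by push_cast; ring, Real.sin_pi_sub,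
        Real.cos_pi_sub, Real.sin_pi_div_four, Real.cos_pi_div_four]
      exact ⟨rfl, le_rfl⟩
  have hker : ∀ y : ℝ, ‖((ker σ y : ℝ) : ℂ)‖ ≤ 5 * Real.exp (-(2 * Real.pi * |y|)) := by
    intro y
    rw [Complex.norm_real, Real.norm_eq_abs]
    unfold Pool.Agent.H397R2.QG.ker
    rw [hsc.1]
    have hch : Real.exp (2 * Real.pi * |y|) / 2 ≤ Real.cosh (2 * Real.pi * y) := by
      have h3 : Real.cosh (2 * Real.pi * y) = Real.cosh (2 * Real.pi * |y|) := by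
        rcases abs_cases y with ⟨h, _⟩ | ⟨h, _⟩
        · rw [h]
        · rw [h, mul_neg, Real.cosh_neg]
      rw [h3, Real.cosh_eq]
      have := Real.exp_pos (-(2 * Real.pi * |y|))
      linarith
    have hc1 := Real.one_le_cosh (2 * Real.pi * y)
    set c := Real.cos (Real.pi * σ / 4) with hc
    set ch := Real.cosh (2 * Real.pi * y) with hch'
    set E := Real.exp (2 * Real.pi * |y|) with hE
    have hE0 : 0 < E := Real.exp_pos _
    have hEi : Real.exp (-(2 * Real.pi * |y|)) = E⁻¹ := by rw [Real.exp_neg]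
    rw [hEi]
    have hden : ch * (117 / 400) ≤ c + ch := by
      have := hsc.2
      nlinarith
    have hden2 : E * (117 / 800) ≤ c + ch := by linarith
    rw [abs_div, abs_of_nonneg (by positivity), abs_of_pos (by linarith [hden2] : 0 < c + ch),
      div_le_iff₀ (by linarith)]
    have h6 : 5 * E⁻¹ * (E * (117 / 800)) ≤ 5 * E⁻¹ * (c + ch) := mul_le_mul_of_nonneg_left hden2 (by positivity)
    have h7 : 5 * E⁻¹ * (E * (117 / 800)) = 117 / 160 := by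
      field_simp
      norm_num
    linarith [hs2]
  have h2 : ‖∫ y : ℝ, Rn n σ y * aeval (zt n σ y) Q * ((ker σ y : ℝ) : ℂ)‖ ≤ ∫ y : ℝ, (5 * B) * (1 + y ^ 2)⁻¹ := by
    apply norm_integral_le_of_norm_le (integrable_inv_one_add_sq.const_mul _)
    refine Filter.Eventually.of_forall (fun y => ?_)
    rw [norm_mul, norm_mul]
    calc _ ≤ ‖Rn n σ y‖ * ‖aeval (zt n σ y) Q‖ * (5 * Real.exp (-(2 * Real.pi * |y|))) :=
          mul_le_mul_of_nonneg_left (hker y) (by positivity)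
      _ = 5 * (‖Rn n σ y‖ * ‖aeval (zt n σ y) Q‖ * Real.exp (-(2 * Real.pi * |y|))) := by ring
      _ ≤ 5 * (B * (1 + y ^ 2)⁻¹) := mul_le_mul_of_nonneg_left (hB y) (by norm_num)
      _ = _ := by ring
  rw [integral_const_mul, integral_univ_inv_one_add_sq] at h2
  have h3 : ‖((((NL n σ u Q - ∑ l ∈ Finset.range (2 * n), wh n σ l * Q.eval (xh σ l) : ℚ) : ℝ) : ℝ) : ℂ)‖ ≤
      |(u : ℝ) - theta σ| * |((rho n Q : ℚ) : ℝ)| + 5 * B * Real.pi := by
    rw [h1]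
    refine (norm_sub_le _ _).trans (add_le_add (le_of_eq ?_) h2)
    rw [norm_mul, Complex.norm_real, Complex.norm_real, Real.norm_eq_abs, Real.norm_eq_abs]
  rw [Complex.norm_real, Real.norm_eq_abs] at h3
  have hpi := Real.pi_lt_d4
  nlinarith

end

end Pool.Agent.TH900.QM
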