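import Pool.Agent.H397R2.QF.H3972H6

/-!
# Irrationality measure of `8 G ± 5 π²/6`: non-vanishing, uniformly in the rational number

`DET p σ u (7 p) ≠ 0` for all large primes `p` and all rational `u` with `|u|_p ≤ p` (adapted from `H397R2/QG/H3pre`,
`H4`, `H6pre`, where `u` is fixed).
-/

open Polynomial Pool.Agent.H337R2 Pool.Agent.H397R2.QG

namespace Pool.Agent.TH900.QM

noncomputable section

namespace N3

open Pool.Agent.H397R2.QG.H3

variable {p : ℕ} [hp : Fact p.Prime]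

/-- the contribution of one pole of the class `r` -/
theorem near_termp {σ : ℕ} (h50 : 50 ≤ p) (h1 : H1st p σ) (hb : H2b p) (u w : ℚ)
    (hu : padicNorm p u ≤ p) {r e j : ℕ} (hr1 : 1 ≤ r) (hr2 : r ≤ p) (hj : j ≤ 7)
    (hw : ∀ i : ℕ, 1 ≤ i → i ≤ 2 →
      padicNorm p (pa (sQ p) m2 (PPn p * ((X + C (r : ℚ)) ^ e * oth p r 14)) (r + j * p) i /
        (p : ℚ) ^ ((e : ℤ) + i - 14) - w * PowerSeries.coeff (2 - i) (ser j e)) ≤ (p : ℚ)⁻¹) :
    padicNorm p ((p : ℚ) ^ (14 - (e : ℤ)) *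
      (pa (sQ p) m2 (PPn p * ((X + C (r : ℚ)) ^ e * oth p r 14)) (r + j * p) 2 *
        (u - fs σ 2 (r + j * p)) -
      pa (sQ p) m2 (PPn p * ((X + C (r : ℚ)) ^ e * oth p r 14)) (r + j * p) 1 *
        fs σ 1 (r + j * p)) +
      w * (PowerSeries.coeff 0 (ser j e) * fl (mm σ p) (dl σ p r) 2 j +
        PowerSeries.coeff 1 (ser j e) * fl (mm σ p) (dl σ p r) 1 j)) ≤ (p : ℚ)⁻¹ := by
  have hPB : PB p 1 1 (TS (-((r + j * p : ℕ) : ℚ)) (oth p r 14)) := PB_prod _ _ _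
  set a2 := pa (sQ p) m2 (PPn p * ((X + C (r : ℚ)) ^ e * oth p r 14)) (r + j * p) 2 with ha2
  set a1 := pa (sQ p) m2 (PPn p * ((X + C (r : ℚ)) ^ e * oth p r 14)) (r + j * p) 1 with ha1
  have hA : ∀ i : ℕ, 1 ≤ i → i ≤ 2 →
      padicNorm p (pa (sQ p) m2 (PPn p * ((X + C (r : ℚ)) ^ e * oth p r 14)) (r + j * p) i /
        (p : ℚ) ^ ((e : ℤ) + i - 14)) ≤ 1 := by
    intro i hi1 hi2
    have h2 := hb r e j i hr1 hr2 hj hi1 hi2 (oth p r 14) hPB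
    rw [padicNorm.div, norm_pz, div_le_one (zpow_pos p_pos' _)]
    refine h2.trans (le_of_eq ?_)
    congr 1
    ring
  have hA2 := hA 2 (by norm_num) le_rfl
  have hA1 := hA 1 le_rfl (by norm_num)
  have hW2 := hw 2 (by norm_num) le_rfl
  have hW1 := hw 1 le_rfl (by norm_num)
  rw [← ha2] at hA2 hW2
  rw [← ha1] at hA1 hW1
  simp only [Nat.sub_self] at hW2
  norm_num only at hW1
  set A2 := a2 / (p : ℚ) ^ ((e : ℤ) + (2 : ℕ) - 14) with hA2d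
  set A1 := a1 / (p : ℚ) ^ ((e : ℤ) + (1 : ℕ) - 14) with hA1d
  have hp0 : (p : ℚ) ≠ 0 := p_pos'.ne'
  have e2 : (p : ℚ) ^ (14 - (e : ℤ)) * a2 = (p : ℚ) ^ 2 * A2 := by
    rw [hA2d, mul_div_assoc', eq_div_iff (zpow_ne_zero _ hp0), mul_right_comm,
      ← zpow_add₀ hp0]
    congr 1
    rw [← zpow_natCast]
    congr 1
    push_cast
    ring
  have e1 : (p : ℚ) ^ (14 - (e : ℤ)) * a1 = (p : ℚ) ^ 1 * A1 := by
    rw [hA1d, mul_div_assoc', eq_div_iff (zpow_ne_zero _ hp0), mul_right_comm,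
      ← zpow_add₀ hp0]
    congr 1
    rw [← zpow_natCast]
    congr 1
    push_cast
    ring
  have hf2 := h1 r j 2 hr1 hr2 hj (by norm_num)
  have hf1 := h1 r j 1 hr1 hr2 hj le_rfl
  have hl2 := fl_norm (p := p) (i := 2) (δ := dl σ p r) h50 (mm_pos (p := p) σ)
    (mm_le (p := p) σ) (dl_le (p := p) σ r) hj
  have hl1 := fl_norm (p := p) (i := 1) (δ := dl σ p r) h50 (mm_pos (p := p) σ)
    (mm_le (p := p) σ) (dl_le (p := p) σ r) hj
  set f2 := fs σ 2 (r + j * p)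
  set f1 := fs σ 1 (r + j * p)
  set l2 := fl (mm σ p) (dl σ p r) 2 j
  set l1 := fl (mm σ p) (dl σ p r) 1 j
  set c0 := PowerSeries.coeff 0 (ser j e)
  set c1 := PowerSeries.coeff 1 (ser j e)
  have key : (p : ℚ) ^ (14 - (e : ℤ)) * (a2 * (u - f2) - a1 * f1) + w * (c0 * l2 + c1 * l1) =
      A2 * ((p : ℚ) ^ 2 * u) - A2 * ((p : ℚ) ^ 2 * f2 - l2) - (A2 - w * c0) * l2 -
        A1 * ((p : ℚ) ^ 1 * f1 - l1) - (A1 - w * c1) * l1 := by
    linear_combination (u - f2) * e2 - f1 * e1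
  rw [key]
  have hle : ∀ {y x : ℚ}, padicNorm p y ≤ 1 → padicNorm p x ≤ (p : ℚ)⁻¹ →
      padicNorm p (y * x) ≤ (p : ℚ)⁻¹ := fun {y x} hy hx => by
    have := nmul hy hx
    rwa [one_mul] at this
  have hle' : ∀ {y x : ℚ}, padicNorm p x ≤ (p : ℚ)⁻¹ → padicNorm p y ≤ 1 →
      padicNorm p (x * y) ≤ (p : ℚ)⁻¹ := fun {y x} hx hy => by
    have := nmul hx hy
    rwa [mul_one] at this
  have hpu : padicNorm p ((p : ℚ) ^ 2 * u) ≤ (p : ℚ)⁻¹ := by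
    have h3 := nmul (norm_ppow (p := p) 2).le hu
    refine h3.trans (le_of_eq ?_)
    rw [← zpow_neg_one, ← zpow_add_one₀ hp0]
    norm_num
  exact nsub (nsub (nsub (nsub (hle hA2 hpu) (hle hA2 hf2)) (hle' hW2 hl2)) (hle hA1 hf1))
    (hle' hW1 hl1)

/-- the contribution of one pole of another class -/
theorem far_termp {σ : ℕ} (h50 : 50 ≤ p) (h1 : H1st p σ) (hb : H2b p) (u : ℚ)
    (hu : padicNorm p u ≤ p) {r s e j : ℕ} (he : e ≤ 12) (hs1 : 1 ≤ s) (hs2 : s ≤ p)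
    (hrs : s ≠ r) (hj : j ≤ 7) :
    padicNorm p ((p : ℚ) ^ (14 - (e : ℤ)) *
      (pa (sQ p) m2 (PPn p * ((X + C (r : ℚ)) ^ e * oth p r 14)) (s + j * p) 2 *
        (u - fs σ 2 (s + j * p)) -
      pa (sQ p) m2 (PPn p * ((X + C (r : ℚ)) ^ e * oth p r 14)) (s + j * p) 1 *
        fs σ 1 (s + j * p))) ≤ (p : ℚ)⁻¹ := by
  have hsm : s ∈ (Finset.Icc 1 p).erase r := by
    rw [Finset.mem_erase, Finset.mem_Icc]
    exact ⟨hrs, hs1, hs2⟩
  have hsplit : (X + C (r : ℚ)) ^ e * oth p r 14 = (X + C (s : ℚ)) ^ 14 *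
      ((X + C (r : ℚ)) ^ e * ∏ r' ∈ ((Finset.Icc 1 p).erase r).erase s, (X + C (r' : ℚ)) ^ 14) := by
    unfold oth
    rw [← Finset.mul_prod_erase _ _ hsm]
    ring
  have hPB : PB p 1 1 (TS (-((s + j * p : ℕ) : ℚ)) ((X + C (r : ℚ)) ^ e *
      ∏ r' ∈ ((Finset.Icc 1 p).erase r).erase s, (X + C (r' : ℚ)) ^ 14)) := by
    rw [map_mul, map_pow]
    have h2 := PB.mul (p := p) zero_le_one (pow_nonneg zero_le_one e) zero_le_one
      (PB.pow zero_le_one zero_le_one (PB1 (p := p) (s + j * p) r) e)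
      (PB_prod (p := p) (s + j * p) 14 (((Finset.Icc 1 p).erase r).erase s))
    rwa [one_pow, one_mul] at h2
  have hb2 := hb s 14 j 2 hs1 hs2 hj (by norm_num) le_rfl _ hPB
  have hb1 := hb s 14 j 1 hs1 hs2 hj le_rfl (by norm_num) _ hPB
  rw [← hsplit] at hb1 hb2
  have hf2 := fs_norm (p := p) (i := 2) h50 h1 hs1 hs2 hj (by norm_num)
  have hf1 := fs_norm (p := p) (i := 1) h50 h1 hs1 hs2 hj le_rfl
  have hp1 : (p : ℚ) ≤ (p : ℚ) ^ 2 := le_self_pow₀ p_one' (by norm_num)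
  have hp0 : (p : ℚ) ≠ 0 := p_pos'.ne'
  have t2 : padicNorm p (pa (sQ p) m2 (PPn p * ((X + C (r : ℚ)) ^ e * oth p r 14)) (s + j * p) 2 *
        (u - fs σ 2 (s + j * p))) ≤ 1 := by
    have h3 := nmul hb2 (nsub (hu.trans hp1) hf2)
    refine h3.trans (le_of_eq ?_)
    rw [← zpow_natCast (p : ℚ) 2, ← zpow_add₀ hp0]
    norm_num
  have t1 : padicNorm p (pa (sQ p) m2 (PPn p * ((X + C (r : ℚ)) ^ e * oth p r 14)) (s + j * p) 1 *
        fs σ 1 (s + j * p)) ≤ 1 := by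
    have h3 := nmul hb1 hf1
    refine h3.trans (le_of_eq ?_)
    rw [← zpow_natCast (p : ℚ) 1, ← zpow_add₀ hp0]
    norm_num
  have h4 := nmul (norm_pz (p := p) (14 - (e : ℤ))).le (nsub t2 t1)
  refine h4.trans ?_
  rw [mul_one, ← zpow_neg_one]
  apply zpow_le_zpow_right₀ p_one'
  omega

end N3

open Pool.Agent.H397R2.QG.H3 N3 in
theorem H3_ofp {p : ℕ} [Fact p.Prime] (hp : 50 ≤ p) (σ : ℕ) (u : ℚ) (hu : padicNorm p u ≤ p)
    (r : ℕ) (hr1 : 1 ≤ r) (hr2 : r ≤ p) (h1 : H1st p σ) (h2 : H2st p r) (hb : H2b p) :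
    ∃ w : ℚ, padicNorm p w = 1 ∧ ∀ e : ℕ, e ≤ 12 →
      padicNorm p ((p : ℚ) ^ (14 - (e : ℤ)) * NL p σ u ((X + C (r : ℚ)) ^ e * oth p r 14) -
        w * Fm (mm σ p) (dl σ p r) e) ≤ (p : ℚ)⁻¹ := by
  obtain ⟨w, hw1, hw⟩ := h2
  refine ⟨w, hw1, fun e he => ?_⟩
  have hrm : r ∈ Finset.Icc 1 p := Finset.mem_Icc.2 ⟨hr1, hr2⟩
  have hN : (p : ℚ) ^ (14 - (e : ℤ)) * NL p σ u ((X + C (r : ℚ)) ^ e * oth p r 14) -
        w * Fm (mm σ p) (dl σ p r) e =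
      ∑ j ∈ Finset.range 8, ((p : ℚ) ^ (14 - (e : ℤ)) *
      (pa (sQ p) m2 (PPn p * ((X + C (r : ℚ)) ^ e * oth p r 14)) (r + j * p) 2 *
        (u - fs σ 2 (r + j * p)) -
      pa (sQ p) m2 (PPn p * ((X + C (r : ℚ)) ^ e * oth p r 14)) (r + j * p) 1 *
        fs σ 1 (r + j * p)) +
      w * (PowerSeries.coeff 0 (ser j e) * fl (mm σ p) (dl σ p r) 2 j +
        PowerSeries.coeff 1 (ser j e) * fl (mm σ p) (dl σ p r) 1 j)) +
      ∑ s ∈ (Finset.Icc 1 p).erase r, ∑ j ∈ Finset.range 8, (p : ℚ) ^ (14 - (e : ℤ)) *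
      (pa (sQ p) m2 (PPn p * ((X + C (r : ℚ)) ^ e * oth p r 14)) (s + j * p) 2 *
        (u - fs σ 2 (s + j * p)) -
      pa (sQ p) m2 (PPn p * ((X + C (r : ℚ)) ^ e * oth p r 14)) (s + j * p) 1 *
        fs σ 1 (s + j * p)) := by
    rw [NL_apply]
    unfold xf sQ
    rw [sum_blocks, ← Finset.add_sum_erase _ _ hrm, mul_add, Finset.mul_sum, Finset.mul_sum,
      Finset.sum_add_distrib]
    unfold Fm
    rw [← Finset.mul_sum (Finset.range 8) _ w]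
    simp only [Finset.mul_sum (Finset.range 8) _ ((p : ℚ) ^ (14 - (e : ℤ)))]
    ring
  rw [hN]
  refine nadd ?_ ?_
  · apply padicNorm.sum_le' _ inv0
    intro j hj
    rw [Finset.mem_range] at hj
    exact near_termp hp h1 hb u w hu hr1 hr2 (by omega)
      (fun i hi1 hi2 => hw e j i he (by omega) hi1 hi2)
  · apply padicNorm.sum_le' _ inv0
    intro s hs
    rw [Finset.mem_erase, Finset.mem_Icc] at hs
    apply padicNorm.sum_le' _ inv0
    intro j hj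
    rw [Finset.mem_range] at hj
    exact far_termp hp h1 hb u hu he hs.2.1 hs.2.2 hs.1 (by omega)


namespace N4

open Pool.Agent.H397R2.QG.H4

variable {p : ℕ} [hp : Fact p.Prime]

/-- the off-diagonal bound, from `H1_fs` and `H2_bound` -/
theorem H4_offdiag_ofp (h50 : 50 ≤ p) (σ : ℕ)
    (H1_fs : ∀ r j i : ℕ, 1 ≤ r → r ≤ p → j ≤ 7 → 1 ≤ i →
      padicNorm p ((p : ℚ) ^ i * fs σ i (r + j * p) - fl (mm σ p) (dl σ p r) i j) ≤ (p : ℚ)⁻¹)
    (H2_bound : ∀ r : ℕ, 1 ≤ r → r ≤ p → ∀ a j i : ℕ, j ≤ 7 → 1 ≤ i → i ≤ 2 → ∀ F : ℚ[X],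
      PB p 1 1 (TS (-((r + j * p : ℕ) : ℚ)) F) →
      padicNorm p (pa (sQ p) m2 (PPn p * ((X + C (r : ℚ)) ^ a * F)) (r + j * p) i) ≤ (p : ℚ) ^ (14 - (a : ℤ) - i))
    (u : ℚ) (hu : padicNorm p u ≤ p) (r s l l' : ℕ) (hrs : r ≠ s) (hl : l < 7) (hl' : l' < 7) :
    padicNorm p ((p : ℚ) ^ (14 - (l : ℤ) - (l' : ℤ)) * NL p σ u
      (((X + C (r : ℚ)) ^ l * oth p r 7) * ((X + C (s : ℚ)) ^ l' * oth p s 7))) ≤ (p : ℚ)⁻¹ := by
  have hp0 : (0 : ℚ) < p := p_pos'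
  have hp1 : (1 : ℚ) ≤ p := p_one'
  have key : padicNorm p (NL p σ u
      (((X + C (r : ℚ)) ^ l * oth p r 7) * ((X + C (s : ℚ)) ^ l' * oth p s 7))) ≤
      (p : ℚ) ^ (13 - (l : ℤ) - (l' : ℤ)) := by
    rw [NL_apply]
    unfold xf
    apply padicNorm.sum_le' _ (zpow_nonneg hp0.le _)
    intro k hk
    obtain ⟨c, j, hc1, hc2, hj, rfl⟩ := pole k hk
    obtain ⟨a, F, ha, e, hF⟩ := factor r s l l' hrs hl hl' c hc1 hc2
    rw [e]
    have b1 := H2_bound c hc1 hc2 a j 1 hj le_rfl (by norm_num) F (hF _)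
    have b2 := H2_bound c hc1 hc2 a j 2 hj (by norm_num) le_rfl F (hF _)
    have f1 := fs_le h50 σ c 1 j hj (H1_fs c j 1 hc1 hc2 hj le_rfl)
    have f2 := fs_le h50 σ c 2 j hj (H1_fs c j 2 hc1 hc2 hj (by norm_num))
    have hfin : (p : ℚ) ^ (14 - (a : ℤ)) ≤ (p : ℚ) ^ (13 - (l : ℤ) - (l' : ℤ)) :=
      zpow_le_zpow_right₀ hp1 (by omega)
    refine padicNorm.sub.trans (max_le ?_ ?_)
    · rw [padicNorm.mul]
      have f2' : padicNorm p (u - fs σ 2 (c + j * p)) ≤ (p : ℚ) ^ 2 :=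
        padicNorm.sub.trans (max_le (hu.trans (le_self_pow₀ hp1 (by norm_num))) f2)
      calc _ ≤ (p : ℚ) ^ (14 - (a : ℤ) - (2 : ℕ)) * (p : ℚ) ^ 2 :=
            mul_le_mul b2 f2' (padicNorm.nonneg _) (zpow_nonneg hp0.le _)
        _ = (p : ℚ) ^ (14 - (a : ℤ)) := by
            rw [← zpow_natCast (p : ℚ) 2, ← zpow_add₀ hp0.ne']
            congr 1
            ring
        _ ≤ _ := hfin
    · rw [padicNorm.mul]
      calc _ ≤ (p : ℚ) ^ (14 - (a : ℤ) - (1 : ℕ)) * (p : ℚ) ^ 1 :=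
            mul_le_mul b1 f1 (padicNorm.nonneg _) (zpow_nonneg hp0.le _)
        _ = (p : ℚ) ^ (14 - (a : ℤ)) := by
            rw [← zpow_natCast (p : ℚ) 1, ← zpow_add₀ hp0.ne']
            congr 1
            ring
        _ ≤ _ := hfin
  rw [padicNorm.mul, Pool.Agent.H397R2.QG.H4.norm_zpow]
  calc _ ≤ (p : ℚ) ^ (-(14 - (l : ℤ) - (l' : ℤ))) * (p : ℚ) ^ (13 - (l : ℤ) - (l' : ℤ)) :=
        mul_le_mul_of_nonneg_left key (zpow_nonneg hp0.le _)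
    _ = (p : ℚ) ^ (-1 : ℤ) := by
        rw [← zpow_add₀ hp0.ne']
        congr 1
        ring
    _ = (p : ℚ)⁻¹ := zpow_neg_one _

end N4

theorem H3_diagp {p : ℕ} [Fact p.Prime] (hp : 50 ≤ p) (σ : ℕ) (hσ : σ = 1 ∨ σ = 3) (u : ℚ)
    (hu : padicNorm p u ≤ p) (r : ℕ) (hr1 : 1 ≤ r) (hr2 : r ≤ p) :
    ∃ w : ℚ, padicNorm p w = 1 ∧ ∀ e : ℕ, e ≤ 12 →
      padicNorm p ((p : ℚ) ^ (14 - (e : ℤ)) * NL p σ u ((X + C (r : ℚ)) ^ e * oth p r 14) -
        w * Fm (mm σ p) (dl σ p r) e) ≤ (p : ℚ)⁻¹ :=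
  H3_ofp hp σ u hu r hr1 hr2 (fun r j i a b c d => H1_fs hp σ hσ r j i a b c d)
    (H2_pa hp r hr1 hr2)
    (fun r a j i a1 a2 a3 a4 a5 F hF => H2_bound hp r a1 a2 a j i a3 a4 a5 F hF)

theorem H4_offdiagp {p : ℕ} [Fact p.Prime] (hp : 50 ≤ p) (σ : ℕ) (hσ : σ = 1 ∨ σ = 3) (u : ℚ)
    (hu : padicNorm p u ≤ p) (r s l l' : ℕ) (_hr1 : 1 ≤ r) (_hr2 : r ≤ p) (_hs1 : 1 ≤ s) (_hs2 : s ≤ p) (hrs : r ≠ s)
    (hl : l < 7) (hl' : l' < 7) :
    padicNorm p ((p : ℚ) ^ (14 - (l : ℤ) - (l' : ℤ)) * NL p σ u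
      (((X + C (r : ℚ)) ^ l * oth p r 7) * ((X + C (s : ℚ)) ^ l' * oth p s 7))) ≤ (p : ℚ)⁻¹ :=
  N4.H4_offdiag_ofp hp σ (fun r j i a b c d => H1_fs hp σ hσ r j i a b c d)
    (fun r h1 h2 a j i hj hi1 hi2 F hF => H2_bound hp r h1 h2 a j i hj hi1 hi2 F hF) u hu r s l l' hrs hl hl'

theorem nonvanish (σ : ℕ) (hσ : σ = 1 ∨ σ = 3) : ∃ p0 : ℕ, ∀ p : ℕ, p0 ≤ p → p.Prime → ∀ u : ℚ,
    padicNorm p u ≤ p → DET p σ u (7 * p) ≠ 0 := by
  -- bounds on the constants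
  have hD : ∃ p1 : ℕ, ∀ m0 δ : ℕ, (m0 = 1 ∨ m0 = 3) → (δ = 0 ∨ δ = 1) → ∀ p : ℕ, p1 ≤ p → p.Prime →
      padicNorm p (Matrix.of fun l l' : Fin 7 => Fm m0 δ (l.1 + l'.1)).det = 1 := by
    obtain ⟨a, ha⟩ := H6_unit _ (H5_local 1 0 (Or.inl rfl) (Or.inl rfl))
    obtain ⟨b, hb⟩ := H6_unit _ (H5_local 1 1 (Or.inl rfl) (Or.inr rfl))
    obtain ⟨c, hc⟩ := H6_unit _ (H5_local 3 0 (Or.inr rfl) (Or.inl rfl))
    obtain ⟨d, hd⟩ := H6_unit _ (H5_local 3 1 (Or.inr rfl) (Or.inr rfl))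
    refine ⟨a + b + c + d, ?_⟩
    rintro m0 δ (rfl | rfl) (rfl | rfl) p hp hpp
    · exact ha p (by omega) hpp
    · exact hb p (by omega) hpp
    · exact hc p (by omega) hpp
    · exact hd p (by omega) hpp
  obtain ⟨p1, hp1⟩ := hD
  have hF : ∃ p2 : ℕ, ∀ m0 δ : ℕ, (m0 = 1 ∨ m0 = 3) → (δ = 0 ∨ δ = 1) → ∀ e ∈ Finset.range 13,
      ∀ p : ℕ, p2 ≤ p → p.Prime → padicNorm p (Fm m0 δ e) ≤ 1 := by
    choose f hf using fun x : ℕ × ℕ × ℕ => H6_int (Fm x.1 x.2.1 x.2.2)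
    refine ⟨(Finset.range 4 ×ˢ Finset.range 2 ×ˢ Finset.range 13).sup f, fun m0 δ hm hδ e he p hp hpp =>
      hf (m0, δ, e) p ?_ hpp⟩
    refine (Finset.le_sup (f := f) ?_).trans hp
    rw [Finset.mem_product, Finset.mem_product]
    refine ⟨Finset.mem_range.2 ?_, Finset.mem_range.2 ?_, he⟩
    · rcases hm with rfl | rfl <;> norm_num
    · rcases hδ with rfl | rfl <;> norm_num
  obtain ⟨p2, hp2⟩ := hF
  refine ⟨p1 + p2 + 50, fun p hp hpp u hup => ?_⟩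
  have : Fact p.Prime := ⟨hpp⟩
  have hp50 : 50 ≤ p := by omega
  have hmm : mm σ p = 1 ∨ mm σ p = 3 := by
    unfold mm
    split_ifs
    · exact Or.inl rfl
    · exact Or.inr rfl
  have hdl : ∀ r, dl σ p r = 0 ∨ dl σ p r = 1 := by
    intro r
    unfold dl
    split_ifs
    · exact Or.inr rfl
    · exact Or.inl rfl
  -- choose the units
  have hw : ∀ r : Fin p, ∃ w : ℚ, padicNorm p w = 1 ∧ ∀ e : ℕ, e ≤ 12 →
      padicNorm p ((p : ℚ) ^ (14 - (e : ℤ)) * NL p σ u ((X + C ((r.1 + 1 : ℕ) : ℚ)) ^ e * oth p (r.1 + 1) 14) -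
        w * Fm (mm σ p) (dl σ p (r.1 + 1)) e) ≤ (p : ℚ)⁻¹ := by
    intro r
    have hr := r.2
    exact H3_diagp hp50 σ hσ u hup (r.1 + 1) (by omega) (by omega)
  choose w hw1 hw2 using hw
  -- the Gram matrix
  set G : Matrix (Fin 7 × Fin p) (Fin 7 × Fin p) ℚ :=
    Matrix.of fun a b => NL p σ u (H6_P p (a.2.1 + 1) a.1.1 * H6_P p (b.2.1 + 1) b.1.1) with hG
  have key : G.det ≠ 0 := by
    set c : Fin 7 × Fin p → ℚ := fun a => (p : ℚ) ^ (7 - (a.1.1 : ℤ)) with hc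
    set M : Matrix (Fin 7 × Fin p) (Fin 7 × Fin p) ℚ :=
      Matrix.of fun a b => c a * c b * G a b with hM
    set Bl : Fin p → Matrix (Fin 7) (Fin 7) ℚ := fun r =>
      Matrix.of fun l l' => w r * Fm (mm σ p) (dl σ p (r.1 + 1)) (l.1 + l'.1) with hBl
    have hp0 : (p : ℚ) ≠ 0 := by exact_mod_cast hpp.ne_zero
    have hcc : ∀ a b : Fin 7 × Fin p, c a * c b = (p : ℚ) ^ (14 - (a.1.1 : ℤ) - (b.1.1 : ℤ)) := by
      intro a b
      simp only [hc]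
      rw [← zpow_add₀ hp0]
      congr 1
      ring
    have hM0 : M.det ≠ 0 := by
      apply Pool.Agent.H336R2.HD.A6_det_congr p M (Matrix.blockDiagonal Bl)
      · intro a b
        rw [Matrix.blockDiagonal_apply]
        split_ifs with hab
        · simp only [hBl, Matrix.of_apply]
          have ha := a.1.2
          have hb := b.1.2
          have h1 : padicNorm p (Fm (mm σ p) (dl σ p (a.2.1 + 1)) (a.1.1 + b.1.1)) ≤ 1 :=
            hp2 _ _ hmm (hdl _) _ (Finset.mem_range.2 (by omega)) p (by omega) hpp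
          rw [padicNorm.mul, hw1, one_mul]
          exact h1
        · simp
      · intro a b
        rw [Matrix.blockDiagonal_apply]
        have ha := a.1.2
        have hb := b.1.2
        have ha2 := a.2.2
        have hb2 := b.2.2
        have hMab : M a b = (p : ℚ) ^ (14 - (a.1.1 : ℤ) - (b.1.1 : ℤ)) *
            NL p σ u (H6_P p (a.2.1 + 1) a.1.1 * H6_P p (b.2.1 + 1) b.1.1) := by
          simp only [hM, hG, Matrix.of_apply]
          rw [hcc]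
        split_ifs with hab
        · rw [hMab, ← hab, H6_P_mul]
          have h1 := hw2 a.2 (a.1.1 + b.1.1) (by omega)
          have h2 : (14 - ((a.1.1 + b.1.1 : ℕ) : ℤ)) = 14 - (a.1.1 : ℤ) - (b.1.1 : ℤ) := by
            push_cast
            ring
          rw [h2] at h1
          exact h1
        · rw [hMab, sub_zero]
          apply H4_offdiagp hp50 σ hσ u hup (a.2.1 + 1) (b.2.1 + 1) a.1.1 b.1.1 (by omega) (by omega)
            (by omega) (by omega) _ ha hb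
          intro h1
          apply hab
          ext
          omega
      · rw [Matrix.det_blockDiagonal]
        have hprod : ∀ (n : ℕ) (f : Fin n → ℚ), (∀ i, padicNorm p (f i) = 1) → padicNorm p (∏ i, f i) = 1 := by
          intro n f hf
          have h4 : padicNorm p (∏ i, f i) = ∏ i, padicNorm p (f i) := by
            exact map_prod (⟨⟨fun x => padicNorm p x, padicNorm.one⟩, fun x y => padicNorm.mul x y⟩ :
              ℚ →* ℚ) f Finset.univ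
          rw [h4]
          exact Finset.prod_eq_one fun i _ => hf i
        have hdet : ∀ r : Fin p, padicNorm p (Bl r).det = 1 := by
          intro r
          have h1 : Bl r = Matrix.of fun l l' => (w r) *
              (Matrix.of fun l l' : Fin 7 => Fm (mm σ p) (dl σ p (r.1 + 1)) (l.1 + l'.1)) l l' := by
            ext l l'
            simp only [hBl, Matrix.of_apply]
          rw [h1, Matrix.det_mul_column (fun _ => w r), padicNorm.mul, hprod 7 _ (fun _ => hw1 r),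
            hp1 _ _ hmm (hdl _) p (by omega) hpp, one_mul]
        exact hprod p _ hdet
    intro h0
    apply hM0
    rw [hM, H6_det_scale, h0, mul_zero, mul_zero]
  -- conclusion
  have hcard : Fintype.card (Fin 7 × Fin p) = Fintype.card (Fin (7 * p)) := by
    simp only [Fintype.card_prod, Fintype.card_fin]
  obtain ⟨e⟩ := Fintype.card_eq.1 hcard
  unfold DET
  apply Pool.Agent.H336R2.HD.A2_gram_ne (NL p σ u) (7 * p) e (fun a => H6_P p (a.2.1 + 1) a.1.1)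
  · intro a
    have ha := a.1.2
    have ha2 := a.2.2
    exact H6_P_natDegree p _ _ (by omega) (by omega) ha
  · exact key

end

end Pool.Agent.TH900.QM
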