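import Pool.Agent.H397R2.QF.H3462PA

/-!
# Irrationality measure of `8 G ± 5 π²/6`: a suitable prime

For every large `L` and every `b` with `log b ≤ L` there is a prime `n = 1 mod 24` with
`3.502 L < n ≤ 7.504 L` and `n² ∤ b`.
-/

open Filter Topology

namespace Pool.Agent.TH900.QM

noncomputable section

open ArithmeticFunction Chebyshev Pool.Agent.H346R2.QG.PAAux

/-- the von Mangoldt weight of the class 1 modulo 24 -/
def Rr24 (k : ℕ) : ℝ := vonMangoldt.residueClass ((1 : ℕ) : ZMod 24) k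

/-- the weight of the primes of the class -/
def tt24 (k : ℕ) : ℝ := if k.Prime ∧ k % 24 = 1 then Real.log k else 0

theorem class_iff24 (k : ℕ) : ((k : ℕ) : ZMod 24) = ((1 : ℕ) : ZMod 24) ↔ k % 24 = 1 := by
  have h := ZMod.natCast_eq_natCast_iff' k 1 24
  rw [Nat.mod_eq_of_lt (by norm_num : 1 < 24)] at h
  exact h

theorem diff_bd24 (k : ℕ) :
    0 ≤ Rr24 k - tt24 k ∧ Rr24 k - tt24 k ≤ vonMangoldt k - uu k := by
  have hu := uu_le k
  by_cases h : k % 24 = 1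
  · have h1 : Rr24 k = vonMangoldt k := by
      unfold Rr24
      rw [vonMangoldt.residueClass, Set.indicator_of_mem]
      exact (class_iff24 k).2 h
    have h2 : tt24 k = uu k := by
      unfold tt24 uu
      by_cases h3 : k.Prime
      · rw [if_pos ⟨h3, h⟩, if_pos h3]
      · rw [if_neg (fun h4 => h3 h4.1), if_neg h3]
    rw [h1, h2]
    exact ⟨by linarith, le_rfl⟩
  · have h1 : Rr24 k = 0 := by
      unfold Rr24
      rw [vonMangoldt.residueClass, Set.indicator_of_notMem]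
      exact fun h' => h ((class_iff24 k).1 h')
    have h2 : tt24 k = 0 := by
      unfold tt24
      rw [if_neg (fun h4 => h h4.2)]
    rw [h1, h2]
    exact ⟨by norm_num, by linarith⟩

theorem R_tendsto24 :
    Tendsto (fun m : ℕ => (∑ k ∈ Finset.Ioc 0 m, Rr24 k) / (m : ℝ)) atTop (𝓝 (1 / 8)) := by
  have hu : IsUnit ((1 : ℕ) : ZMod 24) := by
    rw [ZMod.isUnit_iff_coprime]
    decide
  have h := (Pool.Agent.Cov.PNT.pnt_residueClass (q := 24) hu).comp
    (tendsto_natCast_atTop_atTop (R := ℝ))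
  have e : (((Nat.totient 24 : ℕ) : ℝ))⁻¹ = 1 / 8 := by
    have : Nat.totient 24 = 8 := by decide
    rw [this]
    norm_num
  rw [e] at h
  refine h.congr fun n => ?_
  simp only [Function.comp, Nat.floor_natCast]
  rfl

theorem PA24 : Tendsto (fun m : ℕ => (∑ k ∈ Finset.Ioc 0 m, tt24 k) / (m : ℝ)) atTop (𝓝 (1 / 8)) := by
  have h1 := R_tendsto24
  have h2 : Tendsto (fun m : ℕ => (∑ k ∈ Finset.Ioc 0 m, (Rr24 k - tt24 k)) / (m : ℝ)) atTop
      (𝓝 0) := by
    have h3 := psi_theta_tendsto.comp (tendsto_natCast_atTop_atTop (R := ℝ))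
    refine squeeze_zero (fun m => ?_) (fun m => ?_) h3
    · exact div_nonneg (Finset.sum_nonneg fun k _ => (diff_bd24 k).1) (Nat.cast_nonneg m)
    · simp only [Function.comp]
      rw [sum_psi, sum_uu, ← Finset.sum_sub_distrib]
      exact div_le_div_of_nonneg_right (Finset.sum_le_sum fun k _ => (diff_bd24 k).2)
        (Nat.cast_nonneg m)
  have h3 := h1.sub h2
  rw [sub_zero] at h3
  refine h3.congr fun m => ?_
  rw [Finset.sum_sub_distrib]
  ring

theorem PA24' (ε : ℝ) (hε : 0 < ε) : ∃ T : ℕ, 1 ≤ T ∧ ∀ m : ℕ, T ≤ m →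
    |∑ k ∈ Finset.Ioc 0 m, tt24 k - m / 8| ≤ ε * m := by
  have h := (Metric.tendsto_atTop.1 PA24) ε hε
  obtain ⟨T, hT⟩ := h
  refine ⟨max T 1, le_max_right _ _, fun m hm => ?_⟩
  have h1 := hT m ((le_max_left _ _).trans hm)
  have hm1 : 1 ≤ m := (le_max_right _ _).trans hm
  have hm0 : (0 : ℝ) < m := by exact_mod_cast hm1
  rw [Real.dist_eq] at h1
  have e : ∑ k ∈ Finset.Ioc 0 m, tt24 k - m / 8 = ((∑ k ∈ Finset.Ioc 0 m, tt24 k) / m - 1 / 8) * m := by
    field_simp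
  rw [e, abs_mul, abs_of_pos hm0]
  exact mul_le_mul_of_nonneg_right h1.le hm0.le

theorem prime_between : ∃ L0 : ℝ, 1 ≤ L0 ∧ ∀ L : ℝ, L0 ≤ L → ∀ b : ℕ, 0 < b → Real.log b ≤ L →
    ∃ p : ℕ, p.Prime ∧ p % 24 = 1 ∧ 3.502 * L < p ∧ (p : ℝ) ≤ 7.504 * L ∧ ¬ p ^ 2 ∣ b := by
  obtain ⟨T, hT1, hT⟩ := PA24' 0.00001 (by norm_num)
  refine ⟨max (T + 1) 1000, (by norm_num : (1 : ℝ) ≤ 1000).trans (le_max_right _ _), fun L hL b hb hbL => ?_⟩
  have hL1 : 1000 ≤ L := (le_max_right _ _).trans hL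
  have hLT : (T : ℝ) + 1 ≤ L := (le_max_left _ _).trans hL
  by_contra hcon
  push Not at hcon
  set m1 : ℕ := ⌊3.502 * L⌋₊ with hm1
  set m2 : ℕ := ⌊7.504 * L⌋₊ with hm2
  have a1 : (m1 : ℝ) ≤ 3.502 * L := Nat.floor_le (by positivity)
  have a1' : 3.502 * L < m1 + 1 := Nat.lt_floor_add_one _
  have a2 : (m2 : ℝ) ≤ 7.504 * L := Nat.floor_le (by positivity)
  have a2' : 7.504 * L < m2 + 1 := Nat.lt_floor_add_one _
  have hT1' : T ≤ m1 := by
    have : (T : ℝ) ≤ m1 := by linarith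
    exact_mod_cast this
  have hm12 : m1 ≤ m2 := by
    have : (m1 : ℝ) ≤ m2 := by linarith
    exact_mod_cast this
  set S : Finset ℕ := (Finset.Ioc m1 m2).filter (fun p => p.Prime ∧ p % 24 = 1) with hS
  have hmem : ∀ p ∈ S, p.Prime ∧ p ^ 2 ∣ b := by
    intro p hp
    rw [hS, Finset.mem_filter, Finset.mem_Ioc] at hp
    refine ⟨hp.2.1, ?_⟩
    have h1 : 3.502 * L < p := (Nat.floor_lt (by positivity)).1 hp.1.1
    have h2 : (p : ℝ) ≤ 7.504 * L := (Nat.le_floor_iff (by positivity)).1 hp.1.2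
    exact hcon p hp.2.1 hp.2.2 h1 h2
  have hdvd : ∏ p ∈ S, p ^ 2 ∣ b := by
    have h1 : (∏ p ∈ S, ((p : ℤ)) ^ 2) ∣ (b : ℤ) := by
      apply Finset.prod_dvd_of_coprime
      · intro p hp r hr hpr
        have h2 : Nat.Coprime p r := (Nat.coprime_primes (hmem p hp).1 (hmem r hr).1).2 hpr
        exact (Nat.isCoprime_iff_coprime.2 h2).pow
      · intro p hp
        exact_mod_cast (hmem p hp).2
    exact_mod_cast h1
  have hle : ∏ p ∈ S, p ^ 2 ≤ b := Nat.le_of_dvd hb hdvd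
  have hlog : 2 * ∑ p ∈ S, Real.log p ≤ Real.log b := by
    have h1 : ((∏ p ∈ S, p ^ 2 : ℕ) : ℝ) = ∏ p ∈ S, (p : ℝ) ^ 2 := by push_cast; rfl
    have h2 : 2 * ∑ p ∈ S, Real.log p = Real.log (∏ p ∈ S, (p : ℝ) ^ 2) := by
      rw [Real.log_prod (fun p hp => by
        have := (hmem p hp).1.pos
        positivity), Finset.mul_sum]
      refine Finset.sum_congr rfl fun p _ => ?_
      rw [Real.log_pow]
      push_cast
      ring
    rw [h2, ← h1]
    apply Real.log_le_log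
    · have : 0 < ∏ p ∈ S, p ^ 2 := Finset.prod_pos fun p hp => pow_pos (hmem p hp).1.pos 2
      exact_mod_cast this
    · exact_mod_cast hle
  have hsum : ∑ p ∈ S, Real.log p = ∑ k ∈ Finset.Ioc 0 m2, tt24 k - ∑ k ∈ Finset.Ioc 0 m1, tt24 k := by
    have h1 : ∑ k ∈ Finset.Ioc 0 m2, tt24 k = ∑ k ∈ Finset.Ioc 0 m1, tt24 k + ∑ k ∈ Finset.Ioc m1 m2, tt24 k := by
      rw [← Finset.sum_union]
      · rw [Finset.Ioc_union_Ioc_eq_Ioc (Nat.zero_le _) hm12]
      · rw [Finset.disjoint_left]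
        intro k hk hk2
        rw [Finset.mem_Ioc] at hk hk2
        omega
    rw [h1, add_sub_cancel_left, hS, Finset.sum_filter]
    rfl
  have h1 := abs_le.1 (hT m1 hT1')
  have h2 := abs_le.1 (hT m2 (hT1'.trans hm12))
  rw [hsum] at hlog
  linarith [h1.2, h2.1]

end

end Pool.Agent.TH900.QM
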