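import Pool.Agent.H397R2.QF.H9752Pmain

/-!
# Irrationality measure of `8 G ± 5 π²/6`: the p-adic side, uniformly in the rational number `u`

(the proof of `P_main_of` of `Pool.Agent.H397R2.QF.H3462PM`, with the order of the quantifiers changed)
-/

open Filter Topology Pool.Agent.H397R2.QG Pool.Agent.H346R2.QG

namespace Pool.Agent.TH900.QM

theorem P_unif_of (hPA : PAs) (hPA2 : PA2s) (hPB : PBs) (hC1 : PC1s) (hC2 : PC2s)
    (hbig : Pbig) (hmed : Pmed) (hsmall : Psmall)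
    (σ : ℕ) (hσ : σ = 1 ∨ σ = 3) : ∀ᶠ n : ℕ in atTop, ∀ (q : ℕ) (u : ℚ), UInt q u →
    ∃ (S : Finset ℕ) (B : ℕ → ℝ), (∀ p ∈ S, p.Prime ∧ 0 < B p) ∧
      (∀ p ∈ S, ((padicNorm p ((q : ℚ) ^ (7 * n) * DET n σ u (7 * n)) : ℚ) : ℝ) ≤ B p) ∧
      (∀ p, p.Prime → p ∉ S → padicNorm p ((q : ℚ) ^ (7 * n) * DET n σ u (7 * n)) ≤ 1) ∧
      ∑ p ∈ S, Real.log (B p) ≤ 49 * (n : ℝ) ^ 2 * Real.log n + 206 * (n : ℝ) ^ 2 := by
  obtain ⟨C, hC⟩ := hsmall
  filter_upwards [P_sum hPA hPA2 hPB hC1 hC2 σ hσ (C : ℝ) (Nat.cast_nonneg C), eventually_ge_atTop 1] with n hn1 hn q u hu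
  obtain ⟨B, hB⟩ : ∃ B : ℕ → ℝ, B = fun p => if 8 * n < p then (p : ℝ) ^ (2 * (8 * n - jj σ p) : ℕ) else
      if 32 * n + 3 < p ^ 2 then (p : ℝ) ^ (E2 n σ p) else
      (p : ℝ) ^ (2 * padicValNat p (∏ i ∈ Finset.range (7 * n), i.factorial) +
        C * n * (Nat.log p (32 * n + 3) + 1) : ℕ) := ⟨_, rfl⟩
  refine ⟨PQ n, B, ?_, ?_, ?_, ?_⟩
  · intro p hp
    unfold PQ at hp
    rw [Finset.mem_filter] at hp
    have hp0 : (0 : ℝ) < p := by exact_mod_cast hp.2.pos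
    refine ⟨hp.2, ?_⟩
    rw [hB]
    simp only
    split_ifs
    · positivity
    · positivity
    · positivity
  · intro p hp
    unfold PQ at hp
    rw [Finset.mem_filter] at hp
    have : Fact p.Prime := ⟨hp.2⟩
    rw [hB]
    simp only
    split_ifs with h1 h2
    · have h := hbig n σ q p u hσ hu hn h1
      exact_mod_cast h
    · have h3 : 3 ≤ p := by
        rcases hp.2.two_le.lt_or_eq with h | h
        · exact h
        · rw [← h] at h2
          omega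
      have h := hmed n σ q p u hσ hu hn h3 (by omega) h2
      have h' := (Rat.cast_le (K := ℝ)).2 h
      rw [Rat.cast_zpow, Rat.cast_natCast] at h'
      exact h'
    · have h := hC n σ q p u hσ hu hn (by omega)
      exact_mod_cast h
  · intro p hp hpS
    have : Fact p.Prime := ⟨hp⟩
    have h1 : 32 * n + 4 ≤ p := by
      by_contra hcon
      apply hpS
      unfold PQ
      rw [Finset.mem_filter, Finset.mem_range]
      exact ⟨by omega, hp⟩
    have h := hbig n σ q p u hσ hu hn (by omega)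
    have h2 : 8 * n - j0 σ p = 0 := by
      unfold j0
      split_ifs <;> omega
    rw [h2, mul_zero, pow_zero] at h
    exact h
  · apply hn1 (fun p => Real.log (B p))
    · intro p hp h1
      rw [hB]
      simp only [h1, if_true]
      rw [Real.log_pow]
    · intro p hp h1 h2
      rw [hB]
      simp only [h2, if_true, if_neg (by omega : ¬ 8 * n < p)]
      rw [Real.log_zpow]
    · intro p hp h1
      have h8 : p ≤ 8 * n := by
        by_contra hcon
        have h9 : 8 * n + 1 ≤ p := by omega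
        have h10 : (8 * n + 1) ^ 2 ≤ p ^ 2 := Nat.pow_le_pow_left h9 2
        nlinarith
      rw [hB]
      simp only [if_neg (by omega : ¬ 8 * n < p), if_neg (by omega : ¬ 32 * n + 3 < p ^ 2)]
      rw [Real.log_pow]
      unfold sfac
      push_cast
      exact le_refl _


open Pool.Agent.QG in
theorem P_unif (σ : ℕ) (hσ : σ = 1 ∨ σ = 3) : ∀ᶠ n : ℕ in atTop, ∀ (q : ℕ) (u : ℚ), UInt q u →
    ∃ (S : Finset ℕ) (B : ℕ → ℝ), (∀ p ∈ S, p.Prime ∧ 0 < B p) ∧
      (∀ p ∈ S, ((padicNorm p ((q : ℚ) ^ (7 * n) * DET n σ u (7 * n)) : ℚ) : ℝ) ≤ B p) ∧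
      (∀ p, p.Prime → p ∉ S → padicNorm p ((q : ℚ) ^ (7 * n) * DET n σ u (7 * n)) ≤ 1) ∧
      ∑ p ∈ S, Real.log (B p) ≤ 49 * (n : ℝ) ^ 2 * Real.log n + 206 * (n : ℝ) ^ 2 :=
  P_unif_of (fun a ha => PA a ha) (fun a ha α j h1 h2 => PA2 a ha (PA a ha) α j h1 h2) PB_proof
    (fun n σ p hp hpn => PC1_proof n σ p hp hpn) (fun n σ p h1 h2 h3 h4 => PC2 n σ p h1 h2 h3 h4)
    Pbig_holds Pmed_holds Psmall_holds σ hσ

end Pool.Agent.TH900.QM
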