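import Pool.Agent.TH900.QM.Arch
import Pool.Agent.TH900.QM.NonV
import Pool.Agent.TH900.QM.PMain
import Pool.Agent.TH900.QM.PB
import Pool.Agent.H397R2.QG.Z0
import Pool.Agent.H336R2.HD.A5

/-!
# Irrationality measure of `8 G ± 5 π²/6`: assembly
-/

open Polynomial Pool.Agent.H337R2 Pool.Agent.H397R2.QG Filter Topology

namespace Pool.Agent.TH900.QM

noncomputable section

lemma norm_frac_le {n b : ℕ} [hn : Fact n.Prime] (hb : 0 < b) (hnb : ¬ n ^ 2 ∣ b) (a : ℤ) :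
    padicNorm n ((a : ℚ) / b) ≤ n := by
  have hbq : (b : ℚ) ≠ 0 := by exact_mod_cast hb.ne'
  have hn0 : (0 : ℚ) < n := by exact_mod_cast hn.out.pos
  have hn1 : (1 : ℚ) ≤ n := by exact_mod_cast hn.out.one_le
  have hv : padicValNat n b ≤ 1 := by
    by_contra h
    exact hnb ((padicValNat_dvd_iff_le hb.ne').2 (by omega))
  have h1 : padicNorm n (b : ℚ) = (n : ℚ) ^ (-(padicValNat n b : ℤ)) := by
    rw [padicNorm.eq_zpow_of_nonzero hbq, padicValRat.of_nat]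
  have h2 : ((n : ℚ))⁻¹ ≤ padicNorm n (b : ℚ) := by
    rw [h1, ← zpow_neg_one]
    exact zpow_le_zpow_right₀ hn1 (by omega)
  rw [padicNorm.div]
  have h3 : padicNorm n (a : ℚ) ≤ 1 := padicNorm.of_int a
  have h4 : (0 : ℚ) < padicNorm n (b : ℚ) := lt_of_lt_of_le (by positivity) h2
  rw [div_le_iff₀ h4]
  calc padicNorm n (a : ℚ) ≤ 1 := h3
    _ = (n : ℚ) * (n : ℚ)⁻¹ := by field_simp
    _ ≤ n * padicNorm n (b : ℚ) := mul_le_mul_of_nonneg_left h2 hn0.le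

/-- no good approximation with a large denominator -/
theorem large_den (σ : ℕ) (hσ : σ = 1 ∨ σ = 3) : ∃ b0 : ℕ, 1 ≤ b0 ∧ ∀ (a : ℤ) (b : ℕ), b0 ≤ b →
    ((b : ℝ) ^ 586)⁻¹ < |theta σ - (a : ℝ) / b| := by
  obtain ⟨p0, hp0⟩ := nonvanish σ hσ
  obtain ⟨N1, hN1⟩ := eventually_atTop.1 (arch σ hσ (1 / 1000) (by norm_num))
  obtain ⟨n2, hn2⟩ := eventually_atTop.1 (P_unif σ hσ)
  obtain ⟨L0, hL01, hPB⟩ := prime_between
  obtain ⟨b0, hb0⟩ := exists_nat_gt (Real.exp (L0 + 24 * N1 + n2 + p0 + 25))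
  refine ⟨b0, ?_, fun a b hb => ?_⟩
  · have : (0 : ℝ) < b0 := (Real.exp_pos _).trans hb0
    have : 0 < b0 := by exact_mod_cast this
    omega
  by_contra hcon
  push Not at hcon
  have hbR : Real.exp (L0 + 24 * N1 + n2 + p0 + 25) < b := hb0.trans_le (by exact_mod_cast hb)
  have hbpos : (0 : ℝ) < b := (Real.exp_pos _).trans hbR
  have hb1 : 0 < b := by exact_mod_cast hbpos
  set L : ℝ := Real.log b with hL
  have hLbig : L0 + 24 * N1 + n2 + p0 + 25 < L := by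
    rw [hL]
    exact (Real.lt_log_iff_exp_lt hbpos).2 hbR
  have hN1c : (0 : ℝ) ≤ N1 := Nat.cast_nonneg _
  have hn2c : (0 : ℝ) ≤ n2 := Nat.cast_nonneg _
  have hp0c : (0 : ℝ) ≤ p0 := Nat.cast_nonneg _
  obtain ⟨n, hnp, hn24, hnL, hnU, hnb⟩ := hPB L (by linarith) b hb1 le_rfl
  have : Fact n.Prime := ⟨hnp⟩
  have hnR : L0 + 24 * N1 + n2 + p0 + 25 < n := by linarith
  have hnn2 : n2 ≤ n := by
    have : (n2 : ℝ) ≤ n := by linarith
    exact_mod_cast this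
  have hnp0 : p0 ≤ n := by
    have : (p0 : ℝ) ≤ n := by linarith
    exact_mod_cast this
  have hnN : 24 * N1 + 25 ≤ n := by
    have : ((24 * N1 + 25 : ℕ) : ℝ) ≤ n := by push_cast; linarith
    exact_mod_cast this
  obtain ⟨N, hN⟩ : ∃ N, n = 24 * N + 1 := ⟨n / 24, by omega⟩
  have hnpos : (0 : ℝ) < n := by linarith
  -- the rational number
  set x : ℚ := (a : ℚ) / b with hx
  have hbq : (b : ℚ) ≠ 0 := by exact_mod_cast hb1.ne'
  have hxR : (x : ℝ) = (a : ℝ) / b := by rw [hx]; push_cast; rfl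
  have hu : UInt b x := ⟨hb1, a, by rw [hx]; field_simp⟩
  have hnx : padicNorm n x ≤ n := norm_frac_le hb1 hnb a
  have hDne : DET n σ x (7 * n) ≠ 0 := hp0 n hnp0 hnp x hnx
  -- the distance
  have hdist : |(x : ℝ) - theta σ| ≤ Real.exp (-(78 * n)) := by
    rw [abs_sub_comm, hxR]
    refine hcon.trans ?_
    have h1 : ((b : ℝ) ^ 586)⁻¹ = Real.exp (-(586 * L)) := by
      rw [Real.exp_neg, show 586 * L = ((586 : ℕ) : ℝ) * Real.log b by push_cast; rfl, ← Real.log_pow,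
        Real.exp_log (by positivity)]
    rw [h1]
    apply Real.exp_le_exp.2
    linarith
  have g1 := hN1 N (by omega) n hN x hdist hDne
  obtain ⟨S, B, hS1, hS2, hS3, hS4⟩ := hn2 n hnn2 b x hu
  -- product formula
  obtain ⟨z, hz⟩ : ∃ z : ℚ, z = (b : ℚ) ^ (7 * n) * DET n σ x (7 * n) := ⟨_, rfl⟩
  have hz0 : z ≠ 0 := by
    rw [hz]
    exact mul_ne_zero (pow_ne_zero _ hbq) hDne
  have hpf := Pool.Agent.H336R2.HD.A5_prod_formula z hz0 S (fun p hp => (hS1 p hp).1) B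
    (fun p hp => by rw [hz]; exact hS2 p hp) (fun p hp hpS => by rw [hz]; exact hS3 p hp hpS)
  have hprodpos : 0 < ∏ p ∈ S, B p := Finset.prod_pos fun p hp => (hS1 p hp).2
  have hzabs : 0 < |(z : ℝ)| := abs_pos.2 (by exact_mod_cast hz0)
  have hlog := Real.log_nonneg hpf
  rw [Real.log_mul hzabs.ne' hprodpos.ne', Real.log_prod (fun p hp => (hS1 p hp).2.ne')] at hlog
  have hzlog : Real.log |(z : ℝ)| = (7 * n : ℝ) * L + Real.log |((DET n σ x (7 * n) : ℚ) : ℝ)| := by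
    rw [hz]
    push_cast
    rw [abs_mul, Real.log_mul (abs_pos.2 (by positivity)).ne' (abs_pos.2 (by exact_mod_cast hDne)).ne',
      abs_of_pos (by positivity), Real.log_pow]
    push_cast
    ring
  have h1 : (7 * n : ℝ) * L ≤ 7 / 3.502 * (n : ℝ) ^ 2 := by
    have : L ≤ n / 3.502 := by
      rw [le_div_iff₀ (by norm_num)]
      linarith
    calc (7 * n : ℝ) * L ≤ 7 * n * (n / 3.502) := by gcongr
      _ = _ := by ring
  have h2 : (0 : ℝ) < (n : ℝ) ^ 2 := by positivity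
  rw [hzlog] at hlog
  nlinarith

/-- irrationality measure of `theta σ` -/
theorem measure (σ : ℕ) (hσ : σ = 1 ∨ σ = 3) :
    ∃ c : ℝ, 0 < c ∧ ∀ (a : ℤ) (b : ℕ), 0 < b → c / (b : ℝ) ^ 586 ≤ |theta σ - (a : ℝ) / b| := by
  obtain ⟨b0, hb0, h⟩ := large_den σ hσ
  have hb0R : (0 : ℝ) < b0 := by exact_mod_cast hb0
  refine ⟨((b0 : ℝ) ^ 586)⁻¹, by positivity, fun a b hb => ?_⟩
  have hbR : (0 : ℝ) < b := by exact_mod_cast hb
  have h1 := h (a * b0) (b * b0) (Nat.le_mul_of_pos_left b0 hb)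
  push_cast at h1
  rw [mul_div_mul_right _ _ hb0R.ne'] at h1
  refine le_trans (le_of_eq ?_) h1.le
  rw [mul_pow, mul_inv, div_eq_mul_inv]
  ring

/-- irrationality measure of `8 G + 5 π²/6` and `8 G - 5 π²/6` -/
theorem main (s : ℝ) (hs : s = 1 ∨ s = -1) :
    ∃ c : ℝ, 0 < c ∧ ∀ (a : ℤ) (b : ℕ), 0 < b →
      c / (b : ℝ) ^ 586 ≤ |8 * Cat + s * (5 * Real.pi ^ 2 / 6) - (a : ℝ) / b| := by
  rcases hs with rfl | rfl
  · obtain ⟨c, hc, h⟩ := measure 1 (Or.inl rfl)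
    refine ⟨c, hc, fun a b hb => ?_⟩
    have h1 := h a b hb
    rw [Z0_theta1] at h1
    rw [one_mul]
    exact h1
  · obtain ⟨c, hc, h⟩ := measure 3 (Or.inr rfl)
    refine ⟨c, hc, fun a b hb => ?_⟩
    have h1 := h (-a) b hb
    rw [Z0_theta3, ← abs_neg] at h1
    refine h1.trans (le_of_eq ?_)
    congr 1
    push_cast
    ring

end

end Pool.Agent.TH900.QM
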