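import Pool.Agent.TH900.QM.Line
import Pool.Agent.TH900.QM.Interp

/-!
# Irrationality measure of `8 G ± 5 π²/6`: bound for the coefficient of `u`
-/

open Polynomial Pool.Agent.H337R2 Pool.Agent.H397R2.QG

namespace Pool.Agent.TH900.QM

noncomputable section

lemma cl_bd {n σ : ℕ} (hσ : σ = 1 ∨ σ = 3) : 2 * (n : ℝ) - 3 / 8 ≤ cl n σ ∧ cl n σ ≤ 2 * n - 1 / 8 := by
  unfold cl
  rcases hσ with rfl | rfl <;> constructor <;> push_cast <;> linarith

lemma norm_zt_add {n σ : ℕ} (y a : ℝ) : ‖zt n σ y + (a : ℂ)‖ ^ 2 = (cl n σ + a) ^ 2 + y ^ 2 := by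
  have h : zt n σ y + (a : ℂ) = ((cl n σ + a : ℝ) : ℂ) + y * Complex.I := by
    unfold zt; push_cast; ring
  rw [h, ← Complex.normSq_eq_norm_sq, Complex.normSq_add_mul_I]

/-- the denominator near the real axis -/
lemma QQ_le {n σ : ℕ} (hn : 1 ≤ n) (hσ : σ = 1 ∨ σ = 3) (y : ℝ) (hy : |y| ≤ 2 * n) :
    ‖aeval (zt n σ y) (QQ (sQ n) m2)‖ ≤ (40 * (n : ℝ) ^ 2 + 7 * n) ^ (8 * n) := by
  obtain ⟨hc1, hc2⟩ := cl_bd (n := n) hσ
  have hn' : (1 : ℝ) ≤ n := by exact_mod_cast hn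
  have hy2 : y ^ 2 ≤ 4 * (n : ℝ) ^ 2 := by
    have := sq_abs y
    have h0 := abs_nonneg y
    nlinarith
  set a : ℕ → ℝ := fun m => (cl n σ + m) ^ 2 + y ^ 2 with ha
  have h1 : ‖aeval (zt n σ y) (QQ (sQ n) m2)‖ = ∏ m ∈ Finset.Icc 1 (8 * n), a m := by
    unfold QQ sQ m2
    rw [map_prod, norm_prod]
    refine Finset.prod_congr rfl fun m _ => ?_
    rw [map_pow, map_add, aeval_X, aeval_C, norm_pow, ha]
    have := norm_zt_add (n := n) (σ := σ) y (m : ℝ)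
    show _ = (cl n σ + (m : ℝ)) ^ 2 + y ^ 2
    rw [← this]
    simp
  have h2 : ∏ m ∈ Finset.Icc 1 (8 * n), a m = ∏ m ∈ Finset.Icc 1 (8 * n), a (8 * n + 1 - m) := by
    refine Finset.prod_nbij' (fun m => 8 * n + 1 - m) (fun m => 8 * n + 1 - m) ?_ ?_ ?_ ?_ ?_
    · intro m hm; rw [Finset.mem_Icc] at *; omega
    · intro m hm; rw [Finset.mem_Icc] at *; omega
    · intro m hm; rw [Finset.mem_Icc] at hm; omega
    · intro m hm; rw [Finset.mem_Icc] at hm; omega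
    · intro m hm
      rw [Finset.mem_Icc] at hm
      have : 8 * n + 1 - (8 * n + 1 - m) = m := by omega
      rw [this]
  have h3 : (∏ m ∈ Finset.Icc 1 (8 * n), a m) ^ 2 ≤ ((40 * (n : ℝ) ^ 2 + 7 * n) ^ (8 * n)) ^ 2 := by
    have e : (∏ m ∈ Finset.Icc 1 (8 * n), a m) ^ 2 = ∏ m ∈ Finset.Icc 1 (8 * n), (a m * a (8 * n + 1 - m)) := by
      rw [Finset.prod_mul_distrib, ← h2, sq]
    rw [e, ← pow_mul, mul_comm (8 * n) 2, pow_mul]
    refine (Finset.prod_le_prod (fun m _ => by rw [ha]; positivity) fun m hm => ?_).trans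
      (le_of_eq (by rw [Finset.prod_const, Nat.card_Icc, Nat.add_sub_cancel]))
    rw [Finset.mem_Icc] at hm
    have hm1 : (1 : ℝ) ≤ m := by exact_mod_cast hm.1
    have hm8 : (m : ℝ) ≤ 8 * n := by exact_mod_cast hm.2
    have e2 : ((8 * n + 1 - m : ℕ) : ℝ) = 8 * n + 1 - m := by
      rw [Nat.cast_sub (by omega)]
      push_cast
      ring
    rw [ha]
    dsimp only
    rw [e2]
    set A : ℝ := cl n σ + m with hA
    set A' : ℝ := cl n σ + (8 * n + 1 - m) with hA'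
    have hA0 : 0 ≤ A := by linarith
    have hA0' : 0 ≤ A' := by linarith
    have hS : A + A' ≤ 12 * n + 1 := by linarith
    have hS0 : 12 * (n : ℝ) ≤ A + A' := by linarith
    set S : ℝ := A + A' with hSd
    have hP0 : 0 ≤ A * A' := mul_nonneg hA0 hA0'
    have hP : A * A' ≤ S ^ 2 / 4 := by
      have e9 : S ^ 2 / 4 - A * A' = ((A - A') / 2) ^ 2 := by rw [hSd]; ring
      have := sq_nonneg ((A - A') / 2)
      linarith
    have hS2 : 144 * (n : ℝ) ^ 2 ≤ S ^ 2 := by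
      have := pow_le_pow_left₀ (by positivity) hS0 2
      linarith
    have hS3 : S ^ 2 ≤ (12 * n + 1) ^ 2 := pow_le_pow_left₀ (by linarith) hS 2
    have e3 : (A ^ 2 + y ^ 2) * (A' ^ 2 + y ^ 2) = (A * A' - y ^ 2) ^ 2 + y ^ 2 * S ^ 2 := by
      rw [hSd]; ring
    rw [e3]
    have hn2 : 0 ≤ (n : ℝ) ^ 2 := by positivity
    have h4 : (A * A' - y ^ 2) ^ 2 ≤ (S ^ 2 / 4 - y ^ 2) ^ 2 := by
      apply sq_le_sq'
      · linarith
      · linarith
    have h5 : S ^ 2 / 4 + y ^ 2 ≤ 40 * (n : ℝ) ^ 2 + 7 * n := by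
      have h7 : S ^ 2 ≤ 144 * (n : ℝ) ^ 2 + 24 * n + 1 := hS3.trans (le_of_eq (by ring))
      linarith
    have h6 : 0 ≤ S ^ 2 / 4 + y ^ 2 := by positivity
    calc (A * A' - y ^ 2) ^ 2 + y ^ 2 * S ^ 2 ≤ (S ^ 2 / 4 - y ^ 2) ^ 2 + y ^ 2 * S ^ 2 := by linarith
      _ = (S ^ 2 / 4 + y ^ 2) ^ 2 := by ring
      _ ≤ _ := pow_le_pow_left₀ h6 h5 2
  rw [h1]
  exact le_of_sq_le_sq h3 (by positivity)

/-- the nodes -/
def vn (n σ : ℕ) (s : ℕ) : ℂ := zt n σ (((s : ℝ) - 8 * n) / 4)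

lemma vn_sub (n σ i j : ℕ) : ‖vn n σ i - vn n σ j‖ = |(i : ℝ) - j| / 4 := by
  have h : vn n σ i - vn n σ j = ((((i : ℝ) - j) / 4 : ℝ) : ℂ) * Complex.I := by
    unfold vn zt
    push_cast
    ring
  rw [h, norm_mul, Complex.norm_I, mul_one, Complex.norm_real, Real.norm_eq_abs, abs_div]
  norm_num

lemma vn_inj (n σ : ℕ) (S : Finset ℕ) : Set.InjOn (vn n σ) S := by
  intro i _ j _ hij
  have h := vn_sub n σ i j
  rw [hij, sub_self, norm_zero] at h
  have h2 : |(i : ℝ) - j| = 0 := by linarith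
  rw [abs_eq_zero, sub_eq_zero] at h2
  exact_mod_cast h2

/-- the constant -/
def KK (n : ℕ) : ℝ := (8 * n) * ((16 * n) * ((Real.exp (4 * Real.pi * n) * (40 * (n : ℝ) ^ 2 + 7 * n) ^ (8 * n)) *
  ((10.1981 * (n : ℝ)) ^ (16 * n - 1) / (((16 * n - 1).factorial : ℝ) / 8 ^ (16 * n - 1)))) *
    ((2 : ℝ) ^ (8 * n - 1) / ((8 * n - 1).factorial : ℝ)) ^ 2)

lemma eval_bound {n σ : ℕ} (hn : 1 ≤ n) (hσ : σ = 1 ∨ σ = 3) (Q : ℚ[X])
    (hQ : Q.natDegree + 2 ≤ 14 * n) (B : ℝ)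
    (hB : ∀ y : ℝ, ‖Rn n σ y‖ * ‖aeval (zt n σ y) Q‖ * Real.exp (-(2 * Real.pi * |y|)) ≤ B * (1 + y ^ 2)⁻¹)
    (k : ℕ) (hk : k ≤ 8 * n) :
    |(((PPn n * Q).eval (-(k : ℚ)) : ℚ) : ℝ)| ≤
      (16 * n) * ((B * (Real.exp (4 * Real.pi * n) * (40 * (n : ℝ) ^ 2 + 7 * n) ^ (8 * n))) *
        ((10.1981 * (n : ℝ)) ^ (16 * n - 1) / (((16 * n - 1).factorial : ℝ) / 8 ^ (16 * n - 1)))) := by
  obtain ⟨hc1, hc2⟩ := cl_bd (n := n) hσ
  have hn' : (1 : ℝ) ≤ n := by exact_mod_cast hn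
  have hB0 : 0 ≤ B := by
    have h := hB 0
    simp only [abs_zero, mul_zero, neg_zero, Real.exp_zero, mul_one, ne_eq, OfNat.ofNat_ne_zero,
      not_false_eq_true, zero_pow, add_zero, inv_one] at h
    exact le_trans (by positivity) h
  have hy : ∀ i : ℕ, i < 16 * n → |((i : ℝ) - 8 * n) / 4| ≤ 2 * n := by
    intro i hi
    have hi' : (i : ℝ) ≤ 16 * n := by exact_mod_cast hi.le
    have hi0 : (0 : ℝ) ≤ i := by positivity
    rw [abs_le]
    constructor <;> linarith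
  set f : ℂ[X] := (PPn n * Q).map (algebraMap ℚ ℂ) with hf
  have hfd : f.natDegree < 16 * n := by
    rw [hf]
    refine (natDegree_map_le).trans_lt ?_
    have h1 := BLx.deg2 Q hQ
    have h2 : (QQ (sQ n) m2).natDegree = 16 * n := by
      rw [QQ_natDegree]
      unfold m2 sQ
      rw [Finset.sum_const, Nat.card_Icc, smul_eq_mul]
      omega
    omega
  have hev : ∀ z : ℂ, f.eval z = aeval z (PPn n * Q) := by
    intro z
    rw [hf, eval_map_algebraMap]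
  have h := interp (16 * n) (vn n σ) (vn_inj n σ _) f hfd (-(k : ℂ))
    (B * (Real.exp (4 * Real.pi * n) * (40 * (n : ℝ) ^ 2 + 7 * n) ^ (8 * n))) (10.1981 * n)
    (((16 * n - 1).factorial : ℝ) / 8 ^ (16 * n - 1)) ?_ ?_ (by positivity) ?_
  · have e : (((PPn n * Q).eval (-(k : ℚ)) : ℚ) : ℂ) = f.eval (-(k : ℂ)) := by
      rw [hev]
      have h1 := Polynomial.aeval_algebraMap_apply ℂ (-(k : ℚ)) (PPn n * Q)
      have h2 : (algebraMap ℚ ℂ) (-(k : ℚ)) = -(k : ℂ) := by simp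
      rw [h2] at h1
      rw [h1]
      simp
    rw [← e] at h
    have e3 : ‖((((PPn n * Q).eval (-(k : ℚ)) : ℚ)) : ℂ)‖ = |(((PPn n * Q).eval (-(k : ℚ)) : ℚ) : ℝ)| := by
      rw [← Complex.ofReal_ratCast, Complex.norm_real, Real.norm_eq_abs]
    rw [e3] at h
    push_cast at h ⊢
    exact h
  · -- the values at the nodes
    intro i hi
    rw [hev, map_mul, norm_mul]
    have hyi := hy i hi
    set y : ℝ := ((i : ℝ) - 8 * n) / 4 with hyd
    have hv : vn n σ i = zt n σ y := rfl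
    rw [hv]
    have hQQ := QQ_le hn hσ y hyi
    have hQQ0 : aeval (zt n σ y) (QQ (sQ n) m2) ≠ 0 := by
      unfold QQ sQ m2
      rw [map_prod, Finset.prod_ne_zero_iff]
      intro m hm
      rw [map_pow, map_add, aeval_X, aeval_C]
      apply pow_ne_zero
      intro h0
      have h1 := norm_zt_add (n := n) (σ := σ) y (m : ℝ)
      have h2 : zt n σ y + ((m : ℝ) : ℂ) = 0 := by
        rw [← h0]; simp
      rw [h2, norm_zero] at h1
      have hm1 : (1 : ℝ) ≤ m := by exact_mod_cast (Finset.mem_Icc.1 hm).1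
      have h3 : 0 < (cl n σ + m) ^ 2 := by
        have : 0 < cl n σ + m := by linarith
        positivity
      nlinarith [sq_nonneg y]
    have hR : ‖aeval (zt n σ y) (PPn n)‖ = ‖Rn n σ y‖ * ‖aeval (zt n σ y) (QQ (sQ n) m2)‖ := by
      unfold Rn
      rw [norm_div, div_mul_cancel₀]
      exact (norm_pos_iff.2 hQQ0).ne'
    rw [hR]
    have hb := hB y
    have hinv : (1 + y ^ 2)⁻¹ ≤ 1 := inv_le_one_of_one_le₀ (by nlinarith [sq_nonneg y])
    have hb2 : ‖Rn n σ y‖ * ‖aeval (zt n σ y) Q‖ * Real.exp (-(2 * Real.pi * |y|)) ≤ B := by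
      refine hb.trans ?_
      nlinarith
    have hexp : Real.exp (2 * Real.pi * |y|) ≤ Real.exp (4 * Real.pi * n) := by
      apply Real.exp_le_exp.2
      have := Real.pi_pos
      nlinarith
    have hb3 : ‖Rn n σ y‖ * ‖aeval (zt n σ y) Q‖ ≤ B * Real.exp (4 * Real.pi * n) := by
      have h1 := mul_le_mul_of_nonneg_right hb2 (Real.exp_pos (2 * Real.pi * |y|)).le
      rw [mul_assoc, ← Real.exp_add, neg_add_cancel, Real.exp_zero, mul_one] at h1
      exact h1.trans (mul_le_mul_of_nonneg_left hexp hB0)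
    calc ‖Rn n σ y‖ * ‖aeval (zt n σ y) (QQ (sQ n) m2)‖ * ‖aeval (zt n σ y) Q‖
        = (‖Rn n σ y‖ * ‖aeval (zt n σ y) Q‖) * ‖aeval (zt n σ y) (QQ (sQ n) m2)‖ := by ring
      _ ≤ (B * Real.exp (4 * Real.pi * n)) * (40 * (n : ℝ) ^ 2 + 7 * n) ^ (8 * n) :=
          mul_le_mul hb3 hQQ (norm_nonneg _) (by positivity)
      _ = _ := by ring
  · intro i hi
    have hyi := hy i hi
    set y : ℝ := ((i : ℝ) - 8 * n) / 4 with hyd
    have hv : vn n σ i = zt n σ y := rfl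
    have h1 : ‖-(k : ℂ) - vn n σ i‖ ^ 2 = (cl n σ + k) ^ 2 + y ^ 2 := by
      have h2 := norm_zt_add (n := n) (σ := σ) y (k : ℝ)
      rw [← h2, hv, ← norm_neg]
      congr 2
      push_cast
      ring
    have hk' : (k : ℝ) ≤ 8 * n := by exact_mod_cast hk
    have hk0 : (0 : ℝ) ≤ k := by positivity
    have hy2 : y ^ 2 ≤ 4 * (n : ℝ) ^ 2 := by
      have := sq_abs y
      have h0 := abs_nonneg y
      nlinarith
    have h3 : (cl n σ + k) ^ 2 ≤ (10 * n) ^ 2 := by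
      apply pow_le_pow_left₀ (by linarith)
      linarith
    apply le_of_sq_le_sq _ (by positivity)
    rw [h1]
    nlinarith
  · intro i hi
    have h1 : ∏ j ∈ (Finset.range (16 * n)).erase i, ‖vn n σ i - vn n σ j‖ =
        (i.factorial : ℝ) * ((16 * n - 1 - i).factorial : ℝ) / 4 ^ (16 * n - 1) := by
      rw [← prod_dist (16 * n) i hi]
      have : (4 : ℝ) ^ (16 * n - 1) = ∏ j ∈ (Finset.range (16 * n)).erase i, (4 : ℝ) := by
        rw [Finset.prod_const, Finset.card_erase_of_mem (Finset.mem_range.2 hi), Finset.card_range]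
      rw [this, ← Finset.prod_div_distrib]
      exact Finset.prod_congr rfl fun j _ => vn_sub n σ i j
    rw [h1]
    have h2 := fac_le (16 * n) i hi
    rw [div_le_iff₀ (by positivity)] at h2
    have e8 : (8 : ℝ) ^ (16 * n - 1) = 2 ^ (16 * n - 1) * 4 ^ (16 * n - 1) := by
      rw [← mul_pow]; norm_num
    rw [e8, div_le_div_iff₀ (by positivity) (by positivity)]
    have h4 : (0 : ℝ) ≤ 4 ^ (16 * n - 1) := by positivity
    calc ((16 * n - 1).factorial : ℝ) * 4 ^ (16 * n - 1) ≤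
        ((i.factorial : ℝ) * ((16 * n - 1 - i).factorial : ℝ) * 2 ^ (16 * n - 1)) * 4 ^ (16 * n - 1) :=
          mul_le_mul_of_nonneg_right h2 h4
      _ = _ := by ring

/-- the leading coefficient at the pole `k` -/
lemma pa_two (n : ℕ) (P : ℚ[X]) (k : ℕ) :
    pa (sQ n) m2 P k 2 = P.eval (-(k : ℚ)) * ∏ m ∈ (sQ n).erase k, (1 / (-(k : ℚ) + m)) ^ 2 := by
  unfold pa
  rw [if_pos (show 2 ≤ m2 k from le_rfl)]
  unfold pfc
  have h0 : m2 k - 2 = 0 := rfl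
  rw [h0, PowerSeries.coeff_zero_eq_constantCoeff_apply, map_mul, constCoeff_TS]
  congr 1
  unfold VV
  rw [map_prod]
  refine Finset.prod_congr rfl fun m _ => ?_
  rw [map_pow, constCoeff_iv]
  rfl

lemma pole_prod {n k : ℕ} (hn : 1 ≤ n) (hk : k ∈ sQ n) :
    |((∏ m ∈ (sQ n).erase k, (1 / (-(k : ℚ) + m)) ^ 2 : ℚ) : ℝ)| ≤
      ((2 : ℝ) ^ (8 * n - 1) / ((8 * n - 1).factorial : ℝ)) ^ 2 := by
  unfold sQ at hk ⊢
  rw [Finset.mem_Icc] at hk
  have h1 : ((∏ m ∈ (Finset.Icc 1 (8 * n)).erase k, (1 / (-(k : ℚ) + m)) ^ 2 : ℚ) : ℝ) =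
      (∏ j ∈ (Finset.range (8 * n)).erase (k - 1), |((k - 1 : ℕ) : ℝ) - j|)⁻¹ ^ 2 := by
    rw [← Finset.prod_inv_distrib, ← Finset.prod_pow]
    push_cast
    refine Finset.prod_nbij' (fun m => m - 1) (fun j => j + 1) ?_ ?_ ?_ ?_ ?_
    · intro m hm
      rw [Finset.mem_erase, Finset.mem_Icc] at hm
      rw [Finset.mem_erase, Finset.mem_range]
      omega
    · intro j hj
      rw [Finset.mem_erase, Finset.mem_range] at hj
      rw [Finset.mem_erase, Finset.mem_Icc]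
      omega
    · intro m hm
      rw [Finset.mem_erase, Finset.mem_Icc] at hm
      omega
    · intro j _
      omega
    · intro m hm
      rw [Finset.mem_erase, Finset.mem_Icc] at hm
      have e1 : ((k - 1 : ℕ) : ℝ) = k - 1 := by
        rw [Nat.cast_sub hk.1]; push_cast; ring
      have e2 : ((m - 1 : ℕ) : ℝ) = m - 1 := by
        rw [Nat.cast_sub hm.2.1]; push_cast; ring
      rw [e1, e2, one_div]
      have e3 : (k : ℝ) - 1 - (m - 1) = -(-(k : ℝ) + m) := by ring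
      rw [e3, abs_neg, inv_pow, inv_pow, sq_abs]
  rw [h1, prod_dist (8 * n) (k - 1) (by omega)]
  have h2 := fac_le (8 * n) (k - 1) (by omega)
  rw [abs_of_nonneg (by positivity)]
  apply pow_le_pow_left₀ (by positivity)
  rw [inv_eq_one_div]
  have h3 : (0 : ℝ) < ((8 * n - 1).factorial : ℝ) / 2 ^ (8 * n - 1) := by positivity
  refine (one_div_le_one_div_of_le h3 h2).trans (le_of_eq ?_)
  rw [one_div_div]

/-- bound for the coefficient of `u` -/
theorem rho_le {n σ : ℕ} (hn : 1 ≤ n) (hσ : σ = 1 ∨ σ = 3) (Q : ℚ[X])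
    (hQ : Q.natDegree + 2 ≤ 14 * n) (B : ℝ)
    (hB : ∀ y : ℝ, ‖Rn n σ y‖ * ‖aeval (zt n σ y) Q‖ * Real.exp (-(2 * Real.pi * |y|)) ≤ B * (1 + y ^ 2)⁻¹) :
    |((rho n Q : ℚ) : ℝ)| ≤ B * KK n := by
  unfold rho
  push_cast
  refine (Finset.abs_sum_le_sum_abs _ _).trans ?_
  have h1 : ∀ k ∈ sQ n, |((pa (sQ n) m2 (PPn n * Q) k 2 : ℚ) : ℝ)| ≤
      ((16 * n) * ((B * (Real.exp (4 * Real.pi * n) * (40 * (n : ℝ) ^ 2 + 7 * n) ^ (8 * n))) *
        ((10.1981 * (n : ℝ)) ^ (16 * n - 1) / (((16 * n - 1).factorial : ℝ) / 8 ^ (16 * n - 1))))) *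
        ((2 : ℝ) ^ (8 * n - 1) / ((8 * n - 1).factorial : ℝ)) ^ 2 := by
    intro k hk
    rw [pa_two, Rat.cast_mul, abs_mul]
    have hk8 : k ≤ 8 * n := (Finset.mem_Icc.1 hk).2
    exact mul_le_mul (eval_bound hn hσ Q hQ B hB k hk8) (pole_prod hn hk) (abs_nonneg _)
      ((abs_nonneg _).trans (eval_bound hn hσ Q hQ B hB k hk8))
  refine (Finset.sum_le_sum h1).trans (le_of_eq ?_)
  rw [Finset.sum_const, nsmul_eq_mul]
  unfold KK sQ
  rw [Nat.card_Icc, Nat.add_sub_cancel]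
  push_cast
  ring

end

end Pool.Agent.TH900.QM
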